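import Pool.Agent.Run7.h469.EU.Gen

/-! Pairs of linear forms, and linear recurrences, which avoid thin sets of pairs. -/

set_option autoImplicit false

namespace Run7.h469.EU

open Finset Filter Topology

/-- the value of an affine form -/
def fval {d : ℕ} (l : (Fin d → ℤ) × ℤ) (x : Fin d → ℕ) : ℤ := ∑ i, l.1 i * (x i : ℤ) + l.2

open Classical in
/-- the points of the box with a value in `B` of the pair of forms -/
noncomputable def fex {d : ℕ} (B : Set (ℕ × ℕ)) (X : ℕ) (l : ((Fin d → ℤ) × ℤ) × ((Fin d → ℤ) × ℤ)) :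
    Finset (Fin d → ℕ) :=
  (Fintype.piFinset (fun _ => Icc 1 X)).filter (fun x => ∃ u v : ℕ, 0 < u ∧ 0 < v ∧ (u : ℤ) = fval l.1 x ∧
    (v : ℤ) = fval l.2 x ∧ (u, v) ∈ B)

theorem sum_two {d : ℕ} {i j : Fin d} (hij : i ≠ j) (f : Fin d → ℤ) (h : ∀ k, k ≠ i → k ≠ j → f k = 0) :
    ∑ k, f k = f i + f j := by
  rw [← add_sum_erase univ f (mem_univ i), ← add_sum_erase (univ.erase i) f (mem_erase.2 ⟨hij.symm, mem_univ j⟩)]
  rw [sum_eq_zero (fun k hk => ?_), add_zero]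
  rw [mem_erase, mem_erase] at hk
  exact h k hk.2.1 hk.1

theorem card_fex {d : ℕ} {C β : ℝ} {B : Set (ℕ × ℕ)} (hB : Sparse C β B) (X N : ℕ) (hN : 1 ≤ N)
    (l : ((Fin d → ℤ) × ℤ) × ((Fin d → ℤ) × ℤ)) (i j : Fin d) (hij : l.1.1 i * l.2.1 j ≠ l.1.1 j * l.2.1 i)
    (hN1 : ∀ x ∈ Fintype.piFinset (fun _ : Fin d => Icc 1 X), fval l.1 x ≤ N ∧ fval l.2 x ≤ N) :
    ((fex B X l).card : ℝ) ≤ C * (N : ℝ) ^ β * (X : ℝ) ^ (d - 2) := by
  classical
  have hne : i ≠ j := by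
    intro h
    rw [h] at hij
    exact hij rfl
  -- the other coordinates
  let g : (Fin d → ℕ) → (Fin d → ℕ) := fun x k => if k = i ∨ k = j then 1 else x k
  let S : Finset (Fin d → ℕ) := Fintype.piFinset (fun k => if k = i ∨ k = j then {1} else Icc 1 X)
  have hS : S.card ≤ X ^ (d - 2) := by
    rw [Fintype.card_piFinset]
    have e1 : ∀ k : Fin d, (if k = i ∨ k = j then ({1} : Finset ℕ) else Icc 1 X).card =
        if k = i ∨ k = j then 1 else X := by
      intro k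
      split_ifs
      · simp
      · simp
    rw [prod_congr rfl (fun k _ => e1 k), prod_ite, prod_const_one, one_mul, prod_const]
    have e2 : (univ.filter (fun k : Fin d => ¬ (k = i ∨ k = j))).card = d - 2 := by
      have e3 : univ.filter (fun k : Fin d => ¬ (k = i ∨ k = j)) = (univ.erase i).erase j := by
        ext k
        simp only [mem_filter, mem_univ, true_and, mem_erase, not_or]
        tauto
      rw [e3, card_erase_of_mem (mem_erase.2 ⟨hne.symm, mem_univ j⟩), card_erase_of_mem (mem_univ i), card_univ,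
        Fintype.card_fin]
      omega
    rw [e2]
  let F : Finset (ℕ × ℕ) := (fex B X l).image (fun x => ((fval l.1 x).toNat, (fval l.2 x).toNat))
  have hF : (F.card : ℝ) ≤ C * (N : ℝ) ^ β := by
    apply hB N F hN
    intro z hz
    rw [mem_image] at hz
    obtain ⟨x, hx, rfl⟩ := hz
    unfold fex at hx
    rw [mem_filter] at hx
    obtain ⟨h0, u, v, h1, h2, h3, h4, h5⟩ := hx
    obtain ⟨h6, h7⟩ := hN1 x h0
    rw [← h3] at h6 ⊢
    rw [← h4] at h7 ⊢
    simp only [Int.toNat_natCast]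
    exact ⟨h5, h1, h2, by exact_mod_cast h6, by exact_mod_cast h7⟩
  have hcard : (fex B X l).card ≤ (F ×ˢ S).card := by
    apply card_le_card_of_injOn (fun x => (((fval l.1 x).toNat, (fval l.2 x).toNat), g x))
    · intro x hx
      rw [mem_coe] at hx
      rw [mem_coe, mem_product]
      refine ⟨mem_image_of_mem _ hx, ?_⟩
      unfold fex at hx
      rw [mem_filter, Fintype.mem_piFinset] at hx
      rw [Fintype.mem_piFinset]
      intro k
      simp only [g]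
      split_ifs
      · exact mem_singleton_self _
      · exact hx.1 k
    · intro x hx y hy e
      rw [mem_coe] at hx hy
      unfold fex at hx hy
      rw [mem_filter] at hx hy
      obtain ⟨-, u, v, h1, h2, h3, h4, -⟩ := hx
      obtain ⟨-, u', v', h1', h2', h3', h4', -⟩ := hy
      simp only [Prod.mk.injEq] at e
      obtain ⟨⟨e1, e2⟩, e3⟩ := e
      rw [← h3, ← h3'] at e1
      rw [← h4, ← h4'] at e2
      simp only [Int.toNat_natCast] at e1 e2
      have e4 : fval l.1 x = fval l.1 y := by rw [← h3, ← h3', e1]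
      have e5 : fval l.2 x = fval l.2 y := by rw [← h4, ← h4', e2]
      have hoth : ∀ k, k ≠ i → k ≠ j → (x k : ℤ) - y k = 0 := by
        intro k hk1 hk2
        have := congrFun e3 k
        simp only [g, hk1, hk2, or_self, if_false] at this
        rw [this, sub_self]
      have e6 : l.1.1 i * ((x i : ℤ) - y i) + l.1.1 j * ((x j : ℤ) - y j) = 0 := by
        rw [← sum_two hne (fun k => l.1.1 k * ((x k : ℤ) - y k)) (fun k hk1 hk2 => by
          rw [hoth k hk1 hk2, mul_zero])]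
        unfold fval at e4
        simp only [mul_sub, sum_sub_distrib]
        linarith
      have e7 : l.2.1 i * ((x i : ℤ) - y i) + l.2.1 j * ((x j : ℤ) - y j) = 0 := by
        rw [← sum_two hne (fun k => l.2.1 k * ((x k : ℤ) - y k)) (fun k hk1 hk2 => by
          rw [hoth k hk1 hk2, mul_zero])]
        unfold fval at e5
        simp only [mul_sub, sum_sub_distrib]
        linarith
      have e8 : (l.1.1 i * l.2.1 j - l.1.1 j * l.2.1 i) * ((x i : ℤ) - y i) = 0 := by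
        linear_combination l.2.1 j * e6 - l.1.1 j * e7
      have e9 : (l.1.1 i * l.2.1 j - l.1.1 j * l.2.1 i) * ((x j : ℤ) - y j) = 0 := by
        linear_combination l.1.1 i * e7 - l.2.1 i * e6
      have hdet : l.1.1 i * l.2.1 j - l.1.1 j * l.2.1 i ≠ 0 := sub_ne_zero.2 hij
      have e10 : (x i : ℤ) - y i = 0 := by
        rcases mul_eq_zero.1 e8 with h | h
        · exact absurd h hdet
        · exact h
      have e11 : (x j : ℤ) - y j = 0 := by
        rcases mul_eq_zero.1 e9 with h | h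
        · exact absurd h hdet
        · exact h
      funext k
      by_cases hk1 : k = i
      · rw [hk1]; omega
      · by_cases hk2 : k = j
        · rw [hk2]; omega
        · have := hoth k hk1 hk2
          omega
  rw [card_product] at hcard
  calc ((fex B X l).card : ℝ) ≤ ((F.card * S.card : ℕ) : ℝ) := by exact_mod_cast hcard
    _ = (F.card : ℝ) * (S.card : ℝ) := by push_cast; ring
    _ ≤ (C * (N : ℝ) ^ β) * (X : ℝ) ^ (d - 2) := by
        apply mul_le_mul hF (by exact_mod_cast hS) (Nat.cast_nonneg _)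
        exact (Nat.cast_nonneg _).trans hF

theorem fval_le {d : ℕ} (X K : ℕ) (l : (Fin d → ℤ) × ℤ) (h1 : ∀ k, |l.1 k| ≤ K) (h2 : |l.2| ≤ K * X)
    (x : Fin d → ℕ) (hx : x ∈ Fintype.piFinset (fun _ : Fin d => Icc 1 X)) : fval l x ≤ ((d + 1) * K * X : ℕ) := by
  unfold fval
  rw [Fintype.mem_piFinset] at hx
  have h3 : ∑ i, l.1 i * (x i : ℤ) ≤ ∑ _i : Fin d, (K : ℤ) * X := by
    apply sum_le_sum
    intro i _
    have h4 := hx i
    rw [mem_Icc] at h4
    have h5 : (x i : ℤ) ≤ X := by exact_mod_cast h4.2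
    have h6 : (0 : ℤ) ≤ x i := Int.natCast_nonneg _
    calc l.1 i * (x i : ℤ) ≤ |l.1 i| * (x i : ℤ) := mul_le_mul_of_nonneg_right (le_abs_self _) h6
      _ ≤ (K : ℤ) * X := mul_le_mul (h1 i) h5 h6 (by positivity)
  rw [sum_const, card_univ, Fintype.card_fin, nsmul_eq_mul] at h3
  have h4 := (le_abs_self l.2).trans h2
  push_cast
  linarith

/-- **Families of pairs of linear forms.** -/
theorem forms {β : ℝ} {B : Set (ℕ × ℕ)} (hB : Thin β B) (d : ℕ) (ε : ℝ) (hε : 0 < ε) :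
    ∃ C : ℝ, ∀ X K : ℕ, 1 ≤ X → 1 ≤ K → ∀ family : Finset (((Fin d → ℤ) × ℤ) × ((Fin d → ℤ) × ℤ)),
      (∀ l ∈ family, (∀ k, |l.1.1 k| ≤ K) ∧ (∀ k, |l.2.1 k| ≤ K) ∧ |l.1.2| ≤ K * X ∧ |l.2.2| ≤ K * X ∧
        ∃ i j, l.1.1 i * l.2.1 j ≠ l.1.1 j * l.2.1 i) →
      ((family.biUnion (fex B X)).card : ℝ) ≤ C * family.card * ((K : ℝ) * X) ^ (β + ε) * (X : ℝ) ^ (d - 2) := by
  classical
  obtain ⟨C, hC, hCB⟩ := hB ε hε
  refine ⟨C * ((d : ℝ) + 1) ^ (β + ε), fun X K hX hK family hfam => ?_⟩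
  have h1 : ((family.biUnion (fex B X)).card : ℝ) ≤ ∑ l ∈ family, ((fex B X l).card : ℝ) := by
    exact_mod_cast card_biUnion_le
  refine h1.trans ?_
  have h2 : ∀ l ∈ family, ((fex B X l).card : ℝ) ≤
      C * (((d + 1) * K * X : ℕ) : ℝ) ^ (β + ε) * (X : ℝ) ^ (d - 2) := by
    intro l hl
    obtain ⟨k1, k2, k3, k4, i, j, k5⟩ := hfam l hl
    apply card_fex hCB X _ _ l i j k5
    · intro x hx
      exact ⟨fval_le X K l.1 k1 k3 x hx, fval_le X K l.2 k2 k4 x hx⟩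
    · exact Nat.mul_pos (Nat.mul_pos (by omega) hK) hX
  refine (sum_le_sum h2).trans ?_
  rw [sum_const, nsmul_eq_mul]
  push_cast
  rw [mul_assoc ((d : ℝ) + 1), Real.mul_rpow (by positivity) (by positivity)]
  apply le_of_eq
  ring

/-- **All the integral combinations with coefficients up to `K`.** -/
theorem combos {β : ℝ} {B : Set (ℕ × ℕ)} (hB : Thin β B) (ε : ℝ) (hε : 0 < ε) :
    ∃ C : ℝ, ∀ X K : ℕ, 1 ≤ X → 1 ≤ K → ∀ F : Finset (ℕ × ℕ),
      (∀ z ∈ F, 1 ≤ z.1 ∧ z.1 ≤ X ∧ 1 ≤ z.2 ∧ z.2 ≤ X ∧ ∃ a b a' b' : ℤ, |a| ≤ K ∧ |b| ≤ K ∧ |a'| ≤ K ∧ |b'| ≤ K ∧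
        a * b' ≠ b * a' ∧ ∃ u v : ℕ, 0 < u ∧ 0 < v ∧ (u : ℤ) = a * z.1 + b * z.2 ∧ (v : ℤ) = a' * z.1 + b' * z.2 ∧
          (u, v) ∈ B) →
      (F.card : ℝ) ≤ C * (K : ℝ) ^ (4 + β + ε) * (X : ℝ) ^ (β + ε) := by
  classical
  obtain ⟨C, hC⟩ := forms hB 2 ε hε
  refine ⟨|C| * 81, fun X K hX hK F hF => ?_⟩
  have hK1 : (1 : ℝ) ≤ K := by exact_mod_cast hK
  have hX1 : (1 : ℝ) ≤ X := by exact_mod_cast hX
  -- the family of all pairs of linear forms with coefficients up to `K`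
  obtain ⟨I, hI⟩ : ∃ I, I = Icc (-(K : ℤ)) K := ⟨_, rfl⟩
  have hIc : (I.card : ℝ) ≤ 3 * K := by
    rw [hI, Int.card_Icc]
    have : ((K : ℤ) + 1 - -(K : ℤ)).toNat = 2 * K + 1 := by omega
    rw [this]
    push_cast
    linarith
  let mk : (ℤ × ℤ) × (ℤ × ℤ) → ((Fin 2 → ℤ) × ℤ) × ((Fin 2 → ℤ) × ℤ) :=
    fun w => ((![w.1.1, w.1.2], 0), (![w.2.1, w.2.2], 0))
  let fam : Finset (((Fin 2 → ℤ) × ℤ) × ((Fin 2 → ℤ) × ℤ)) :=
    (((I ×ˢ I) ×ˢ (I ×ˢ I)).filter (fun w => w.1.1 * w.2.2 ≠ w.1.2 * w.2.1)).image mk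
  have hfamc : (fam.card : ℝ) ≤ 81 * (K : ℝ) ^ 4 := by
    have h1 : fam.card ≤ ((I ×ˢ I) ×ˢ (I ×ˢ I)).card := card_image_le.trans (card_filter_le _ _)
    rw [card_product, card_product] at h1
    calc (fam.card : ℝ) ≤ ((I.card * I.card * (I.card * I.card) : ℕ) : ℝ) := by exact_mod_cast h1
      _ = (I.card : ℝ) ^ 4 := by push_cast; ring
      _ ≤ (3 * (K : ℝ)) ^ 4 := pow_le_pow_left₀ (Nat.cast_nonneg _) hIc 4
      _ = 81 * (K : ℝ) ^ 4 := by ring
  have hmemI : ∀ a : ℤ, a ∈ I ↔ |a| ≤ K := by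
    intro a
    rw [hI, mem_Icc, abs_le]
  have h1 := hC X K hX hK fam (by
    intro l hl
    simp only [fam, mem_image, mem_filter, mem_product] at hl
    obtain ⟨w, ⟨⟨⟨h2, h3⟩, h4, h5⟩, h6⟩, rfl⟩ := hl
    rw [hmemI] at h2 h3 h4 h5
    refine ⟨?_, ?_, ?_, ?_, 0, 1, ?_⟩
    · intro k
      fin_cases k
      · exact h2
      · exact h3
    · intro k
      fin_cases k
      · exact h4
      · exact h5
    · simp only [mk, abs_zero]
      positivity
    · simp only [mk, abs_zero]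
      positivity
    · exact h6)
  have h2 : F.card ≤ (fam.biUnion (fex B X)).card := by
    apply card_le_card_of_injOn (fun z => ![z.1, z.2])
    · intro z hz
      rw [mem_coe] at hz
      obtain ⟨k1, k2, k3, k4, a, b, a', b', j1, j2, j3, j4, j5, u, v, j6, j7, j8, j9, j10⟩ := hF z hz
      rw [mem_coe, mem_biUnion]
      refine ⟨mk ((a, b), (a', b')), ?_, ?_⟩
      · simp only [fam, mem_image, mem_filter, mem_product]
        refine ⟨((a, b), (a', b')), ⟨⟨⟨?_, ?_⟩, ?_, ?_⟩, j5⟩, rfl⟩ <;> rw [hmemI] <;> assumption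
      · unfold fex
        rw [mem_filter, Fintype.mem_piFinset]
        refine ⟨?_, u, v, j6, j7, ?_, ?_, j10⟩
        · intro k
          fin_cases k
          · simp only [mem_Icc]; exact ⟨k1, k2⟩
          · simp only [mem_Icc]; exact ⟨k3, k4⟩
        · simp only [fval, mk, Fin.sum_univ_two, Matrix.cons_val_zero, Matrix.cons_val_one, add_zero]
          exact j8
        · simp only [fval, mk, Fin.sum_univ_two, Matrix.cons_val_zero, Matrix.cons_val_one, add_zero]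
          exact j9
    · intro z _ z' _ e
      have e0 := congrFun e 0
      have e1 := congrFun e 1
      simp only [Matrix.cons_val_zero, Matrix.cons_val_one] at e0 e1
      exact Prod.ext e0 e1
  have hr : 0 ≤ ((K : ℝ) * X) ^ (β + ε) := by positivity
  calc (F.card : ℝ) ≤ ((fam.biUnion (fex B X)).card : ℝ) := by exact_mod_cast h2
    _ ≤ C * fam.card * ((K : ℝ) * X) ^ (β + ε) * (X : ℝ) ^ (2 - 2) := h1
    _ = C * (fam.card * ((K : ℝ) * X) ^ (β + ε)) := by norm_num; ring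
    _ ≤ |C| * (fam.card * ((K : ℝ) * X) ^ (β + ε)) := mul_le_mul_of_nonneg_right (le_abs_self C) (by positivity)
    _ ≤ |C| * ((81 * (K : ℝ) ^ 4) * ((K : ℝ) * X) ^ (β + ε)) := by
        apply mul_le_mul_of_nonneg_left _ (abs_nonneg C)
        exact mul_le_mul_of_nonneg_right hfamc hr
    _ = |C| * 81 * (K : ℝ) ^ (4 + β + ε) * (X : ℝ) ^ (β + ε) := by
        rw [Real.mul_rpow (by linarith) (by linarith), add_assoc 4 β ε,
          Real.rpow_add (by linarith : (0 : ℝ) < K) 4 (β + ε)]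
        have : (K : ℝ) ^ (4 : ℝ) = (K : ℝ) ^ (4 : ℕ) := by
          rw [← Real.rpow_natCast]
          norm_num
        rw [this]
        ring

/-! ### recurrences -/

/-- the sequence with `x_0 = a`, `x_1 = b`, `x_(n+2) = s x_(n+1) + t x_n` -/
def seq (s t a b : ℕ) : ℕ → ℕ
  | 0 => a
  | 1 => b
  | n + 2 => s * seq s t a b (n + 1) + t * seq s t a b n

theorem seq_inj {s t : ℕ} (ht : 1 ≤ t) {a b a' b' : ℕ} : ∀ n : ℕ, seq s t a b n = seq s t a' b' n →
    seq s t a b (n + 1) = seq s t a' b' (n + 1) → a = a' ∧ b = b'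
  | 0, h1, h2 => ⟨h1, h2⟩
  | n + 1, h1, h2 => by
      apply seq_inj ht n _ h1
      rw [seq, seq, h1] at h2
      exact Nat.eq_of_mul_eq_mul_left ht (by omega)

theorem seq_pos {s t a b : ℕ} (hs : 1 ≤ s) (ha : 1 ≤ a) (hb : 1 ≤ b) : ∀ n : ℕ, 1 ≤ seq s t a b n
  | 0 => ha
  | 1 => hb
  | n + 2 => by
      rw [seq]
      have := seq_pos (t := t) hs ha hb (n + 1)
      have := Nat.mul_le_mul hs this
      omega

theorem seq_two {s t a b : ℕ} (hs : 1 ≤ s) (ht : 1 ≤ t) (n : ℕ) :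
    seq s t a b n + seq s t a b (n + 1) ≤ seq s t a b (n + 2) := by
  rw [seq]
  have h1 := Nat.le_mul_of_pos_left (seq s t a b (n + 1)) hs
  have h2 := Nat.le_mul_of_pos_left (seq s t a b n) ht
  omega

theorem seq_ge {s t a b : ℕ} (hs : 1 ≤ s) (ht : 1 ≤ t) (ha : 1 ≤ a) (hb : 1 ≤ b) :
    ∀ n : ℕ, 2 ^ (n / 2) ≤ seq s t a b n ∧ 2 ^ (n / 2) ≤ seq s t a b (n + 1)
  | 0 => by
      simp only [Nat.zero_div, pow_zero]
      exact ⟨ha, hb⟩
  | 1 => by
      have h1 := seq_two (a := a) (b := b) hs ht 0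
      have e0 : seq s t a b 0 = a := rfl
      have e1 : seq s t a b 1 = b := rfl
      simp only [Nat.reduceDiv, pow_zero, zero_add, Nat.reduceAdd] at h1 ⊢
      omega
  | n + 2 => by
      obtain ⟨h1, h2⟩ := seq_ge hs ht ha hb n
      have h3 := seq_two (a := a) (b := b) hs ht n
      have h4 := seq_two (a := a) (b := b) hs ht (n + 1)
      have e : (n + 2) / 2 = n / 2 + 1 := by omega
      have e3 : seq s t a b (n + 1 + 2) = seq s t a b (n + 2 + 1) := rfl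
      have e4 : seq s t a b (n + 1 + 1) = seq s t a b (n + 2) := rfl
      rw [e3, e4] at h4
      rw [e, pow_succ]
      constructor
      · omega
      · omega

theorem seq_ge_ab {s t a b : ℕ} (hs : 1 ≤ s) (ht : 1 ≤ t) : ∀ n : ℕ, a + b ≤ seq s t a b (n + 2)
  | 0 => seq_two hs ht 0
  | n + 1 => by
      have h1 := seq_two (a := a) (b := b) hs ht (n + 1)
      have h2 := seq_ge_ab (a := a) (b := b) hs ht n
      have e : n + 1 + 2 = n + 2 + 1 := by ring
      rw [e]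
      have e' : n + 1 + 1 = n + 2 := by ring
      rw [e'] at h1
      have h3 : seq s t a b (n + 2) ≤ seq s t a b (n + 2 + 1) := by
        have : n + 1 + 2 = n + 2 + 1 := by ring
        rw [this] at h1
        omega
      omega

/-- **All the triples of all the recurrences with coefficients up to `S`.** -/
theorem recurrences {β : ℝ} {B : Set (ℕ × ℕ)} (hB : Thin β B) (ε : ℝ) (hε : 0 < ε) :
    ∃ C : ℝ, ∀ S Y : ℕ, 1 ≤ Y → ∀ F : Finset (ℕ × ℕ),
      (∀ z ∈ F, 1 ≤ z.1 ∧ 1 ≤ z.2 ∧ ∃ s t n : ℕ, 1 ≤ s ∧ s ≤ S ∧ 1 ≤ t ∧ t ≤ S ∧ seq s t z.1 z.2 (n + 2) ≤ Y ∧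
        (t * seq s t z.1 z.2 n, s * seq s t z.1 z.2 (n + 1)) ∈ B) →
      (F.card : ℝ) ≤ C * (S : ℝ) ^ 2 * (Y : ℝ) ^ (β + ε) := by
  classical
  obtain ⟨C, hC, hCB⟩ := hB (ε / 2) (by linarith)
  obtain ⟨D, hD⟩ : ∃ D : ℝ, ∀ Y : ℕ, 1 ≤ Y → (2 * (Nat.log 2 Y : ℝ) + 2) ≤ D * (Y : ℝ) ^ (ε / 2) := by
    refine ⟨2 / (ε / 2) / Real.log 2 + 2, fun Y hY => ?_⟩
    have hY1 : (1 : ℝ) ≤ Y := by exact_mod_cast hY
    have h1 : (Nat.log 2 Y : ℝ) ≤ Real.log Y / Real.log 2 := by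
      rw [le_div_iff₀ (Real.log_pos (by norm_num)), ← Real.log_pow]
      apply Real.log_le_log (by positivity)
      have : 2 ^ Nat.log 2 Y ≤ Y := Nat.pow_log_le_self 2 (by omega)
      exact_mod_cast this
    have h2 : Real.log Y ≤ (Y : ℝ) ^ (ε / 2) / (ε / 2) := Real.log_le_rpow_div (by linarith) (by linarith)
    have h3 : (1 : ℝ) ≤ (Y : ℝ) ^ (ε / 2) := Real.one_le_rpow hY1 (by linarith)
    have hl2 : 0 < Real.log 2 := Real.log_pos (by norm_num)
    calc 2 * (Nat.log 2 Y : ℝ) + 2 ≤ 2 * (((Y : ℝ) ^ (ε / 2) / (ε / 2)) / Real.log 2) + 2 * (Y : ℝ) ^ (ε / 2) := by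
          have : Real.log Y / Real.log 2 ≤ ((Y : ℝ) ^ (ε / 2) / (ε / 2)) / Real.log 2 := by gcongr
          linarith
      _ = (2 / (ε / 2) / Real.log 2 + 2) * (Y : ℝ) ^ (ε / 2) := by ring
  refine ⟨C * D, fun S Y hY F hF => ?_⟩
  have hY1 : (1 : ℝ) ≤ Y := by exact_mod_cast hY
  -- for each `s`, `t`, `n`
  let G : ℕ → ℕ → ℕ → Finset (ℕ × ℕ) := fun s t n => F.filter (fun z => seq s t z.1 z.2 (n + 2) ≤ Y ∧
    (t * seq s t z.1 z.2 n, s * seq s t z.1 z.2 (n + 1)) ∈ B)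
  have hG : ∀ s t n : ℕ, 1 ≤ s → 1 ≤ t → ((G s t n).card : ℝ) ≤ C * (Y : ℝ) ^ (β + ε / 2) := by
    intro s t n hs ht
    have h1 : ((G s t n).image (fun z => (t * seq s t z.1 z.2 n, s * seq s t z.1 z.2 (n + 1)))).card =
        (G s t n).card := by
      apply card_image_of_injOn
      intro z hz z' hz' e
      simp only [Prod.mk.injEq] at e
      have e1 := Nat.eq_of_mul_eq_mul_left ht e.1
      have e2 := Nat.eq_of_mul_eq_mul_left hs e.2
      obtain ⟨e3, e4⟩ := seq_inj ht n e1 e2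
      exact Prod.ext e3 e4
    rw [← h1]
    apply hCB Y _ hY
    intro w hw
    rw [mem_image] at hw
    obtain ⟨z, hz, rfl⟩ := hw
    simp only [G, mem_filter] at hz
    obtain ⟨h2, h3, h4⟩ := hz
    obtain ⟨h5, h6, -⟩ := hF z h2
    have h7 := seq_pos (t := t) hs h5 h6 n
    have h8 := seq_pos (t := t) hs h5 h6 (n + 1)
    have h9 : seq s t z.1 z.2 (n + 2) = s * seq s t z.1 z.2 (n + 1) + t * seq s t z.1 z.2 n := by rw [seq]
    have h10 := Nat.mul_le_mul ht h7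
    have h11 := Nat.mul_le_mul hs h8
    refine ⟨h4, ?_, ?_, ?_, ?_⟩ <;> simp only <;> omega
  have hsub : F ⊆ (Icc 1 S).biUnion (fun s => (Icc 1 S).biUnion (fun t => (range (2 * Nat.log 2 Y + 2)).biUnion
      (fun n => G s t n))) := by
    intro z hz
    obtain ⟨h1, h2, s, t, n, h3, h4, h5, h6, h7, h8⟩ := hF z hz
    rw [mem_biUnion]
    refine ⟨s, mem_Icc.2 ⟨h3, h4⟩, ?_⟩
    rw [mem_biUnion]
    refine ⟨t, mem_Icc.2 ⟨h5, h6⟩, ?_⟩
    rw [mem_biUnion]
    refine ⟨n, ?_, ?_⟩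
    · rw [mem_range]
      have h9 := (seq_ge h3 h5 h1 h2 (n + 2)).1.trans h7
      have h10 : (n + 2) / 2 ≤ Nat.log 2 Y := by
        exact Nat.le_log_of_pow_le (by norm_num) h9
      omega
    · simp only [G, mem_filter]
      exact ⟨hz, h7, h8⟩
  have hcard : (F.card : ℝ) ≤ ∑ s ∈ Icc 1 S, ∑ t ∈ Icc 1 S, ∑ n ∈ range (2 * Nat.log 2 Y + 2), ((G s t n).card : ℝ) := by
    have h1 : F.card ≤ ∑ s ∈ Icc 1 S, ∑ t ∈ Icc 1 S, ∑ n ∈ range (2 * Nat.log 2 Y + 2), (G s t n).card := by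
      refine (card_le_card hsub).trans (card_biUnion_le.trans (sum_le_sum (fun s _ => ?_)))
      exact card_biUnion_le.trans (sum_le_sum (fun t _ => card_biUnion_le))
    exact_mod_cast h1
  have hb : ∀ s ∈ Icc 1 S, ∀ t ∈ Icc 1 S, ∀ n ∈ range (2 * Nat.log 2 Y + 2), ((G s t n).card : ℝ) ≤
      C * (Y : ℝ) ^ (β + ε / 2) := fun s hs t ht n _ => hG s t n (mem_Icc.1 hs).1 (mem_Icc.1 ht).1
  calc (F.card : ℝ) ≤ ∑ s ∈ Icc 1 S, ∑ t ∈ Icc 1 S, ∑ n ∈ range (2 * Nat.log 2 Y + 2), ((G s t n).card : ℝ) := hcard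
    _ ≤ ∑ s ∈ Icc 1 S, ∑ t ∈ Icc 1 S, ∑ _n ∈ range (2 * Nat.log 2 Y + 2), C * (Y : ℝ) ^ (β + ε / 2) :=
        sum_le_sum (fun s hs => sum_le_sum (fun t ht => sum_le_sum (fun n hn => hb s hs t ht n hn)))
    _ = (S : ℝ) ^ 2 * ((2 * (Nat.log 2 Y : ℝ) + 2) * (C * (Y : ℝ) ^ (β + ε / 2))) := by
        rw [sum_const, sum_const, sum_const, card_range, Nat.card_Icc, nsmul_eq_mul, nsmul_eq_mul, nsmul_eq_mul]
        have : S + 1 - 1 = S := by omega
        rw [this]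
        push_cast
        ring
    _ ≤ (S : ℝ) ^ 2 * ((D * (Y : ℝ) ^ (ε / 2)) * (C * (Y : ℝ) ^ (β + ε / 2))) := by
        apply mul_le_mul_of_nonneg_left _ (by positivity)
        apply mul_le_mul_of_nonneg_right (hD Y hY)
        positivity
    _ = C * D * (S : ℝ) ^ 2 * (Y : ℝ) ^ (β + ε) := by
        have : (Y : ℝ) ^ (β + ε) = (Y : ℝ) ^ (ε / 2) * (Y : ℝ) ^ (β + ε / 2) := by
          rw [← Real.rpow_add (by linarith)]
          congr 1
          ring
        rw [this]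
        ring

end Run7.h469.EU
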