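import Pool.Agent.Run7.h469.EU.Sum

/-! Euclid's algorithm avoids all sets of pairs with a power saving. -/

set_option autoImplicit false

namespace Run7.h469.EU

open Finset

theorem nest {x : ℕ × ℕ} {v U : ℕ} (hv : 1 ≤ v) (hvU : v ≤ U) : ∀ (u k : ℕ), U ≤ u → sub^[k] x = (u, v) →
    ∃ k' u', U ≤ u' ∧ u' < U + v ∧ sub^[k'] x = (u', v) := by
  intro u
  induction u using Nat.strong_induction_on with
  | _ u ih =>
    intro k hu hk
    by_cases h : u < U + v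
    · exact ⟨k, u, hu, h, hk⟩
    · refine ih (u - v) (by omega) (k + 1) (by omega) ?_
      rw [Function.iterate_succ_apply', hk]
      unfold sub
      simp only
      rw [if_neg (by omega), if_pos (by omega)]

theorem sub_swap (x : ℕ × ℕ) : sub x.swap = (sub x).swap := by
  obtain ⟨a, b⟩ := x
  unfold sub
  simp only [Prod.swap_prod_mk]
  split_ifs <;> first | rfl | omega

theorem sub_iter_swap (x : ℕ × ℕ) (k : ℕ) : sub^[k] x.swap = (sub^[k] x).swap := by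
  induction k with
  | zero => rfl
  | succ k ih => rw [Function.iterate_succ_apply', Function.iterate_succ_apply', ih, sub_swap]

theorem nest' {x : ℕ × ℕ} {v U : ℕ} (hv : 1 ≤ v) (hvU : v ≤ U) (u k : ℕ) (hu : U ≤ u) (h : sub^[k] x = (v, u)) :
    ∃ k' u', U ≤ u' ∧ u' < U + v ∧ sub^[k'] x = (v, u') := by
  have h1 : sub^[k] x.swap = (u, v) := by rw [sub_iter_swap, h]; rfl
  obtain ⟨k', u', h2, h3, h4⟩ := nest hv hvU u k hu h1
  refine ⟨k', u', h2, h3, ?_⟩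
  rw [sub_iter_swap] at h4
  have := congrArg Prod.swap h4
  simpa using this

theorem state_mem {X : ℕ} {x : ℕ × ℕ} (hx : x ∈ Icc 1 X ×ˢ Icc 1 X) {k u v : ℕ} (h : sub^[k] x = (u, v)) :
    1 ≤ u ∧ 1 ≤ v ∧ u ≤ X ∧ v ≤ X ∧ x ∈ above X u v := by
  classical
  obtain ⟨a, b⟩ := x
  rw [mem_product, mem_Icc, mem_Icc] at hx
  obtain ⟨⟨ha1, ha2⟩, hb1, hb2⟩ := hx
  simp only at ha1 ha2 hb1 hb2
  obtain ⟨h3, h4, p, q, r, s, h5, h6, h7⟩ := mat_of_state a b ha1 hb1 k u v h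
  have hp : 1 ≤ p := by
    rcases Nat.eq_zero_or_pos p with h | h
    · rw [h] at h5; omega
    · exact h
  have hs : 1 ≤ s := by
    rcases Nat.eq_zero_or_pos s with h | h
    · rw [h] at h5; omega
    · exact h
  have hu : u ≤ a := by
    rw [h6]
    calc u ≤ p * u := Nat.le_mul_of_pos_left u hp
      _ ≤ p * u + q * v := Nat.le_add_right _ _
  have hv : v ≤ b := by
    rw [h7]
    calc v ≤ s * v := Nat.le_mul_of_pos_left v hs
      _ ≤ r * u + s * v := Nat.le_add_left _ _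
  refine ⟨h3, h4, hu.trans ha2, hv.trans hb2, ?_⟩
  unfold above
  rw [mem_filter, mem_product, mem_Icc, mem_Icc]
  exact ⟨⟨⟨ha1, ha2⟩, hb1, hb2⟩, p, q, r, s, h5, h6, h7⟩

/-- the pairs above the first pairs `(u, v)`, `u ≥ U`, of the chains with a fixed small `v` -/
theorem card_chain (X U V : ℕ) (hU : 1 ≤ U) (f : ℕ → ℕ → Finset (ℕ × ℕ))
    (hf : ∀ u v : ℕ, 1 ≤ u → 1 ≤ v → ((f u v).card : ℝ) ≤ 6 * (X : ℝ) ^ 2 / (u * v)) :
    ((((Icc 1 V).biUnion (fun v => (Ico U (U + v)).biUnion (fun u => f u v))).card : ℕ) : ℝ) ≤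
      6 * (X : ℝ) ^ 2 * V / U := by
  have hU0 : (0 : ℝ) < U := by exact_mod_cast hU
  have h1 : ((((Icc 1 V).biUnion (fun v => (Ico U (U + v)).biUnion (fun u => f u v))).card : ℕ) : ℝ) ≤
      ∑ v ∈ Icc 1 V, ∑ u ∈ Ico U (U + v), ((f u v).card : ℝ) := by
    have : ((Icc 1 V).biUnion (fun v => (Ico U (U + v)).biUnion (fun u => f u v))).card ≤
        ∑ v ∈ Icc 1 V, ∑ u ∈ Ico U (U + v), (f u v).card :=
      card_biUnion_le.trans (sum_le_sum (fun v _ => card_biUnion_le))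
    exact_mod_cast this
  refine h1.trans ?_
  have h2 : ∀ v ∈ Icc 1 V, ∑ u ∈ Ico U (U + v), ((f u v).card : ℝ) ≤ 6 * (X : ℝ) ^ 2 / U := by
    intro v hv
    rw [mem_Icc] at hv
    have hv0 : (0 : ℝ) < v := by exact_mod_cast hv.1
    have h3 : ∀ u ∈ Ico U (U + v), ((f u v).card : ℝ) ≤ 6 * (X : ℝ) ^ 2 / (U * v) := by
      intro u hu
      rw [mem_Ico] at hu
      refine (hf u v (by omega) hv.1).trans ?_
      have : (U : ℝ) ≤ u := by exact_mod_cast hu.1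
      apply div_le_div_of_nonneg_left (by positivity) (by positivity)
      gcongr
    refine (sum_le_sum h3).trans ?_
    rw [sum_const, Nat.card_Ico, nsmul_eq_mul]
    have : U + v - U = v := by omega
    rw [this]
    apply le_of_eq
    field_simp
  refine (sum_le_sum h2).trans ?_
  rw [sum_const, Nat.card_Icc, nsmul_eq_mul]
  have : V + 1 - 1 = V := by omega
  rw [this]
  apply le_of_eq
  ring

/-- **Euclid's algorithm**, with an explicit constant. -/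
theorem euclid_card {C β : ℝ} (hC : 0 ≤ C) (hβ : β < 2) {B : Set (ℕ × ℕ)} (hB : Sparse C β B) (X H : ℕ) (hH : 1 ≤ H)
    (E : Finset (ℕ × ℕ)) (hE : ∀ x ∈ E, x ∈ Icc 1 X ×ˢ Icc 1 X ∧ ∃ k : ℕ, sub^[k] x ∈ B ∧
        H ≤ max (sub^[k] x).1 (sub^[k] x).2) :
    (E.card : ℝ) ≤ (12 + 6 * C * 2 ^ β) / (1 - 2 ^ (β / 2 - 1)) * (X : ℝ) ^ 2 * (H : ℝ) ^ (β / 2 - 1) := by
  classical
  have hH0 : (0 : ℝ) < H := by exact_mod_cast hH
  obtain ⟨U, hUdef⟩ : ∃ U : ℕ → ℕ, ∀ j, U j = 2 ^ j * H := ⟨fun j => 2 ^ j * H, fun _ => rfl⟩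
  obtain ⟨V, hVdef⟩ : ∃ V : ℕ → ℕ, ∀ j, V j = ⌊((U j : ℕ) : ℝ) ^ (β / 2)⌋₊ := ⟨_, fun _ => rfl⟩
  have hU1 : ∀ j, 1 ≤ U j := fun j => by
    rw [hUdef]; exact Nat.mul_pos (by positivity) hH
  have hU1r : ∀ j, (1 : ℝ) ≤ ((U j : ℕ) : ℝ) := fun j => by exact_mod_cast hU1 j
  have hVr : ∀ j, ((V j : ℕ) : ℝ) ≤ ((U j : ℕ) : ℝ) ^ (β / 2) := fun j => by
    rw [hVdef]; exact Nat.floor_le (by positivity)
  have hVr' : ∀ j, ((U j : ℕ) : ℝ) ^ (β / 2) < ((V j : ℕ) : ℝ) + 1 := fun j => by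
    rw [hVdef]; exact Nat.lt_floor_add_one _
  have hVU : ∀ j, V j ≤ U j := fun j => by
    have h1 : ((U j : ℕ) : ℝ) ^ (β / 2) ≤ ((U j : ℕ) : ℝ) ^ (1 : ℝ) :=
      Real.rpow_le_rpow_of_exponent_le (hU1r j) (by linarith)
    rw [Real.rpow_one] at h1
    exact_mod_cast (hVr j).trans h1
  let A : ℕ → Finset (ℕ × ℕ) := fun j => (Icc 1 (V j)).biUnion (fun v => (Ico (U j) (U j + v)).biUnion
    (fun u => above X u v))
  let A' : ℕ → Finset (ℕ × ℕ) := fun j => (Icc 1 (V j)).biUnion (fun v => (Ico (U j) (U j + v)).biUnion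
    (fun u => above X v u))
  let F : ℕ → Finset (ℕ × ℕ) := fun j => (Icc 1 X ×ˢ Icc 1 X).filter (fun z => z ∈ B ∧ U j ≤ max z.1 z.2 ∧
    max z.1 z.2 < 2 * U j ∧ V j < z.1 ∧ V j < z.2)
  let G : ℕ → Finset (ℕ × ℕ) := fun j => (F j).biUnion (fun z => above X z.1 z.2)
  have hsub : E ⊆ (range (X + 1)).biUnion (fun j => A j ∪ A' j ∪ G j) := by
    intro x hx
    obtain ⟨hx0, k, h1, h2⟩ := hE x hx
    obtain ⟨⟨u, v⟩, huv⟩ : ∃ z, z = sub^[k] x := ⟨_, rfl⟩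
    rw [← huv] at h1 h2
    simp only at h2
    obtain ⟨hu1, hv1, huX, hvX, hab⟩ := state_mem hx0 huv.symm
    obtain ⟨j, hj⟩ : ∃ j, j = Nat.log 2 (max u v / H) := ⟨_, rfl⟩
    have hdiv : 1 ≤ max u v / H := (Nat.le_div_iff_mul_le hH).2 (by omega)
    have hj1 : U j ≤ max u v := by
      rw [hUdef]
      have : 2 ^ j ≤ max u v / H := by
        rw [hj]; exact Nat.pow_log_le_self 2 (by omega)
      exact (Nat.le_div_iff_mul_le hH).1 this
    have hj2 : max u v < 2 * U j := by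
      rw [hUdef]
      have : max u v / H < 2 ^ (j + 1) := by
        rw [hj]; exact Nat.lt_pow_succ_log_self (by norm_num) _
      have := (Nat.div_lt_iff_lt_mul hH).1 this
      calc max u v < 2 ^ (j + 1) * H := this
        _ = 2 * (2 ^ j * H) := by ring
    have hjX : j < X + 1 := by
      have h3 : j < 2 ^ j := Nat.lt_two_pow_self
      have h4 : 2 ^ j ≤ U j := by rw [hUdef]; exact Nat.le_mul_of_pos_right _ hH
      have h5 : max u v ≤ X := max_le huX hvX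
      omega
    rw [mem_biUnion]
    refine ⟨j, mem_range.2 hjX, ?_⟩
    rw [mem_union, mem_union]
    by_cases hbal : V j < u ∧ V j < v
    · right
      rw [mem_biUnion]
      refine ⟨(u, v), ?_, hab⟩
      rw [mem_filter, mem_product, mem_Icc, mem_Icc]
      exact ⟨⟨⟨hu1, huX⟩, hv1, hvX⟩, h1, hj1, hj2, hbal.1, hbal.2⟩
    · left
      rcases le_total v u with hvu | huv'
      · left
        have hm : max u v = u := max_eq_left hvu
        rw [hm] at hj1 hj2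
        have hvV : v ≤ V j := by
          by_contra hcon
          exact hbal ⟨by omega, by omega⟩
        obtain ⟨k', u', h3, h4, h5⟩ := nest hv1 (hvV.trans (hVU j)) u k hj1 huv.symm
        rw [mem_biUnion]
        refine ⟨v, mem_Icc.2 ⟨hv1, hvV⟩, ?_⟩
        rw [mem_biUnion]
        exact ⟨u', mem_Ico.2 ⟨h3, h4⟩, (state_mem hx0 h5).2.2.2.2⟩
      · right
        have hm : max u v = v := max_eq_right huv'
        rw [hm] at hj1 hj2
        have huV : u ≤ V j := by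
          by_contra hcon
          exact hbal ⟨by omega, by omega⟩
        obtain ⟨k', u', h3, h4, h5⟩ := nest' hu1 (huV.trans (hVU j)) v k hj1 huv.symm
        rw [mem_biUnion]
        refine ⟨u, mem_Icc.2 ⟨hu1, huV⟩, ?_⟩
        rw [mem_biUnion]
        exact ⟨u', mem_Ico.2 ⟨h3, h4⟩, (state_mem hx0 h5).2.2.2.2⟩
  have hpow : ∀ j, ((U j : ℕ) : ℝ) ^ (β / 2) / ((U j : ℕ) : ℝ) = ((U j : ℕ) : ℝ) ^ (β / 2 - 1) := fun j => by
    rw [Real.rpow_sub (by linarith [hU1r j]), Real.rpow_one]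
  have hA : ∀ j, ((A j).card : ℝ) ≤ 6 * (X : ℝ) ^ 2 * ((U j : ℕ) : ℝ) ^ (β / 2 - 1) := fun j => by
    refine (card_chain X (U j) (V j) (hU1 j) (fun u v => above X u v) (fun u v hu hv =>
      card_above_real hu hv)).trans ?_
    rw [mul_div_assoc, ← hpow]
    have := hVr j
    have := hU1r j
    gcongr
  have hA' : ∀ j, ((A' j).card : ℝ) ≤ 6 * (X : ℝ) ^ 2 * ((U j : ℕ) : ℝ) ^ (β / 2 - 1) := fun j => by
    refine (card_chain X (U j) (V j) (hU1 j) (fun u v => above X v u) (fun u v hu hv => by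
      rw [mul_comm (u : ℝ)]
      exact card_above_real hv hu)).trans ?_
    rw [mul_div_assoc, ← hpow]
    have := hVr j
    have := hU1r j
    gcongr
  have hG : ∀ j, ((G j).card : ℝ) ≤ 6 * C * 2 ^ β * (X : ℝ) ^ 2 * ((U j : ℕ) : ℝ) ^ (β / 2 - 1) := fun j => by
    have hUr := hU1r j
    have h1 : ((F j).card : ℝ) ≤ C * ((2 * U j : ℕ) : ℝ) ^ β := by
      apply hB
      · have := hU1 j
        omega
      · intro z hz
        rw [mem_filter, mem_product, mem_Icc, mem_Icc] at hz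
        obtain ⟨⟨⟨h3, h4⟩, h5, h6⟩, h7, h8, h9, h10, h11⟩ := hz
        exact ⟨h7, h3, h5, (le_max_left _ _).trans h9.le, (le_max_right _ _).trans h9.le⟩
    have h2 : ∀ z ∈ F j, ((above X z.1 z.2).card : ℝ) ≤ 6 * (X : ℝ) ^ 2 / (U j * ((U j : ℕ) : ℝ) ^ (β / 2)) := by
      intro z hz
      rw [mem_filter, mem_product, mem_Icc, mem_Icc] at hz
      obtain ⟨⟨⟨h3, h4⟩, h5, h6⟩, h7, h8, h9, h10, h11⟩ := hz
      refine (card_above_real h3 h5).trans ?_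
      have hz1 : (1 : ℝ) ≤ z.1 := by exact_mod_cast h3
      have hz2 : (1 : ℝ) ≤ z.2 := by exact_mod_cast h5
      have hp0 : 0 < ((U j : ℕ) : ℝ) ^ (β / 2) := by positivity
      apply div_le_div_of_nonneg_left (by positivity) (by positivity)
      have h12 : ((U j : ℕ) : ℝ) ^ (β / 2) ≤ z.1 := by
        have h14 : ((V j : ℕ) : ℝ) + 1 ≤ z.1 := by exact_mod_cast h10
        linarith [hVr' j]
      have h13 : ((U j : ℕ) : ℝ) ^ (β / 2) ≤ z.2 := by
        have h14 : ((V j : ℕ) : ℝ) + 1 ≤ z.2 := by exact_mod_cast h11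
        linarith [hVr' j]
      rcases le_total z.1 z.2 with h | h
      · rw [max_eq_right h] at h8
        have h8' : ((U j : ℕ) : ℝ) ≤ z.2 := by exact_mod_cast h8
        rw [mul_comm (z.1 : ℝ)]
        exact mul_le_mul h8' h12 hp0.le (by linarith)
      · rw [max_eq_left h] at h8
        have h8' : ((U j : ℕ) : ℝ) ≤ z.1 := by exact_mod_cast h8
        exact mul_le_mul h8' h13 hp0.le (by linarith)
    have h3 : ((G j).card : ℝ) ≤ ∑ z ∈ F j, ((above X z.1 z.2).card : ℝ) := by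
      exact_mod_cast card_biUnion_le
    refine h3.trans ((sum_le_sum h2).trans ?_)
    rw [sum_const, nsmul_eq_mul]
    have hp0 : 0 < ((U j : ℕ) : ℝ) ^ (β / 2) := by positivity
    have e1 : (((2 * U j : ℕ) : ℝ)) ^ β = 2 ^ β * (((U j : ℕ) : ℝ) ^ (β / 2) * ((U j : ℕ) : ℝ) ^ (β / 2)) := by
      push_cast
      rw [Real.mul_rpow (by norm_num) (by positivity), ← Real.rpow_add (by linarith)]
      congr 2
      ring
    calc ((F j).card : ℝ) * (6 * (X : ℝ) ^ 2 / (U j * ((U j : ℕ) : ℝ) ^ (β / 2)))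
        ≤ (C * ((2 * U j : ℕ) : ℝ) ^ β) * (6 * (X : ℝ) ^ 2 / (U j * ((U j : ℕ) : ℝ) ^ (β / 2))) :=
          mul_le_mul_of_nonneg_right h1 (by positivity)
      _ = 6 * C * 2 ^ β * (X : ℝ) ^ 2 * (((U j : ℕ) : ℝ) ^ (β / 2) / ((U j : ℕ) : ℝ)) := by
          rw [e1]
          field_simp
      _ = _ := by rw [hpow]
  have hsum : (E.card : ℝ) ≤ ∑ j ∈ range (X + 1), (12 + 6 * C * 2 ^ β) * (X : ℝ) ^ 2 * ((U j : ℕ) : ℝ) ^ (β / 2 - 1) := by
    have h1 : (E.card : ℝ) ≤ ∑ j ∈ range (X + 1), ((A j ∪ A' j ∪ G j).card : ℝ) := by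
      exact_mod_cast (card_le_card hsub).trans card_biUnion_le
    refine h1.trans (sum_le_sum (fun j _ => ?_))
    have h2 : ((A j ∪ A' j ∪ G j).card : ℝ) ≤ (A j).card + (A' j).card + (G j).card := by
      have h3 := (card_union_le (A j ∪ A' j) (G j)).trans (Nat.add_le_add_right (card_union_le (A j) (A' j)) _)
      exact_mod_cast h3
    have h4 := hA j
    have h5 := hA' j
    have h6 := hG j
    calc _ ≤ _ := h2
      _ ≤ 6 * (X : ℝ) ^ 2 * ((U j : ℕ) : ℝ) ^ (β / 2 - 1) + 6 * (X : ℝ) ^ 2 * ((U j : ℕ) : ℝ) ^ (β / 2 - 1) +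
          6 * C * 2 ^ β * (X : ℝ) ^ 2 * ((U j : ℕ) : ℝ) ^ (β / 2 - 1) := by linarith
      _ = _ := by ring
  refine hsum.trans ?_
  have hr0 : (0 : ℝ) < 2 ^ (β / 2 - 1) := by positivity
  have hr1 : (2 : ℝ) ^ (β / 2 - 1) < 1 := Real.rpow_lt_one_of_one_lt_of_neg (by norm_num) (by linarith)
  have e : ∀ j, ((U j : ℕ) : ℝ) ^ (β / 2 - 1) = (H : ℝ) ^ (β / 2 - 1) * ((2 : ℝ) ^ (β / 2 - 1)) ^ j := by
    intro j
    rw [hUdef]
    push_cast
    rw [Real.mul_rpow (by positivity) hH0.le, ← Real.rpow_natCast ((2 : ℝ) ^ (β / 2 - 1)) j,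
      ← Real.rpow_natCast (2 : ℝ) j, ← Real.rpow_mul (by norm_num), ← Real.rpow_mul (by norm_num)]
    rw [mul_comm (j : ℝ)]
    ring
  have h1 : ∑ j ∈ range (X + 1), ((2 : ℝ) ^ (β / 2 - 1)) ^ j ≤ 1 / (1 - 2 ^ (β / 2 - 1)) := by
    have h2 := (summable_geometric_of_lt_one hr0.le hr1).sum_le_tsum (range (X + 1)) (fun i _ => by positivity)
    rw [tsum_geometric_of_lt_one hr0.le hr1, inv_eq_one_div] at h2
    exact h2
  calc ∑ j ∈ range (X + 1), (12 + 6 * C * 2 ^ β) * (X : ℝ) ^ 2 * ((U j : ℕ) : ℝ) ^ (β / 2 - 1)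
      = (12 + 6 * C * 2 ^ β) * (X : ℝ) ^ 2 * (H : ℝ) ^ (β / 2 - 1) *
          ∑ j ∈ range (X + 1), ((2 : ℝ) ^ (β / 2 - 1)) ^ j := by
        rw [mul_sum]
        exact sum_congr rfl (fun j _ => by rw [e j]; ring)
    _ ≤ (12 + 6 * C * 2 ^ β) * (X : ℝ) ^ 2 * (H : ℝ) ^ (β / 2 - 1) * (1 / (1 - 2 ^ (β / 2 - 1))) :=
        mul_le_mul_of_nonneg_left h1 (by positivity)
    _ = _ := by ring

/-- **Euclid's algorithm.** -/
theorem euclid_nest {C β : ℝ} (hC : 0 ≤ C) (hβ : β < 2) {B : Set (ℕ × ℕ)} (hB : Sparse C β B) :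
    ∃ C' : ℝ, ∀ X H : ℕ, 1 ≤ H → ∀ E : Finset (ℕ × ℕ), (∀ x ∈ E, x ∈ Icc 1 X ×ˢ Icc 1 X ∧ ∃ k : ℕ, sub^[k] x ∈ B ∧
        H ≤ max (sub^[k] x).1 (sub^[k] x).2) → (E.card : ℝ) ≤ C' * (X : ℝ) ^ 2 * (H : ℝ) ^ (β / 2 - 1) :=
  ⟨_, fun X H hH E hE => euclid_card hC hβ hB X H hH E hE⟩

end Run7.h469.EU
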