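import Pool.Agent.Run7.h469.EU.Gen

/-! Neighbouring fractions around all real numbers outside a set of small dimension. -/

set_option autoImplicit false

namespace Run7.h469.EU

open Finset Filter Topology MeasureTheory

/-- `q / s ≤ α ≤ p / r` where `p s - q r = 1` -/
def Neighbours (α : ℝ) (p q r s : ℕ) : Prop :=
  p * s = q * r + 1 ∧ 1 ≤ r ∧ 1 ≤ s ∧ (q : ℝ) / s ≤ α ∧ α ≤ (p : ℝ) / r

theorem diff_eq {p q r s : ℕ} (h : p * s = q * r + 1) (hr : 1 ≤ r) (hs : 1 ≤ s) :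
    (p : ℝ) / r = (q : ℝ) / s + 1 / (r * s) := by
  have hr0 : (r : ℝ) ≠ 0 := by exact_mod_cast (by omega : r ≠ 0)
  have hs0 : (s : ℝ) ≠ 0 := by exact_mod_cast (by omega : s ≠ 0)
  have h' : (p : ℝ) * s = q * r + 1 := by exact_mod_cast h
  field_simp
  linarith

theorem fin_box (N : ℕ) : {z : ℕ × ℕ × ℕ × ℕ | z.1 ≤ N ∧ z.2.1 ≤ N ∧ z.2.2.1 ≤ N ∧ z.2.2.2 ≤ N}.Finite := by
  refine ((Set.finite_Iic N).prod ((Set.finite_Iic N).prod ((Set.finite_Iic N).prod (Set.finite_Iic N)))).subset ?_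
  rintro ⟨p, q, r, s⟩ ⟨h1, h2, h3, h4⟩
  exact ⟨h1, h2, h3, h4⟩

theorem combine {B : Set (ℕ × ℕ)} {α : ℝ} (hα : Irrational α) (hα0 : 0 < α)
    (f1 : {z : ℕ × ℕ | z ∈ B ∧ ∃ p q : ℕ, Neighbours α p q z.1 z.2}.Finite)
    (f2 : {z : ℕ × ℕ | z ∈ B ∧ ∃ r s : ℕ, Neighbours α z.1 z.2 r s}.Finite)
    (f3 : {z : ℕ × ℕ | z ∈ B ∧ ∃ q s : ℕ, Neighbours α z.1 q z.2 s}.Finite)
    (f4 : {z : ℕ × ℕ | z ∈ B ∧ ∃ p r : ℕ, Neighbours α p z.1 r z.2}.Finite) :
    {z : ℕ × ℕ × ℕ × ℕ | Neighbours α z.1 z.2.1 z.2.2.1 z.2.2.2 ∧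
        ((z.1, z.2.1) ∈ B ∨ (z.2.2.1, z.2.2.2) ∈ B ∨ (z.1, z.2.2.1) ∈ B ∨ (z.2.1, z.2.2.2) ∈ B)}.Finite := by
  -- each pair belongs to finitely many quadruples
  have e1 : ∀ r s : ℕ, {z : ℕ × ℕ × ℕ × ℕ | Neighbours α z.1 z.2.1 z.2.2.1 z.2.2.2 ∧ z.2.2.1 = r ∧
      z.2.2.2 = s}.Finite := by
    intro r s
    obtain ⟨M, hM⟩ := exists_nat_ge α
    refine (fin_box (M * s * r + 1 + M * s + r + s)).subset ?_
    rintro ⟨p, q, r', s'⟩ ⟨⟨k1, k2, k3, k4, k5⟩, k6, k7⟩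
    simp only at k1 k2 k3 k4 k5 k6 k7
    subst k6
    subst k7
    have hs0 : (0 : ℝ) < s' := by exact_mod_cast k3
    have hq : q ≤ M * s' := by
      have : (q : ℝ) / s' ≤ M := k4.trans hM
      rw [div_le_iff₀ hs0] at this
      exact_mod_cast this
    have hp : p ≤ M * s' * r' + 1 := by
      calc p ≤ p * s' := Nat.le_mul_of_pos_right p k3
        _ = q * r' + 1 := k1
        _ ≤ M * s' * r' + 1 := by
            have := Nat.mul_le_mul_right r' hq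
            omega
    refine ⟨?_, ?_, ?_, ?_⟩ <;> simp only <;> omega
  have e2 : ∀ p q : ℕ, {z : ℕ × ℕ × ℕ × ℕ | Neighbours α z.1 z.2.1 z.2.2.1 z.2.2.2 ∧ z.1 = p ∧
      z.2.1 = q}.Finite := by
    intro p q
    obtain ⟨M, hM⟩ := exists_nat_ge ((p : ℝ) / α)
    refine (fin_box (M + (q * M + 1) + p + q)).subset ?_
    rintro ⟨p', q', r, s⟩ ⟨⟨k1, k2, k3, k4, k5⟩, k6, k7⟩
    simp only at k1 k2 k3 k4 k5 k6 k7
    subst k6
    subst k7
    have hr0 : (0 : ℝ) < r := by exact_mod_cast k2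
    have hr : r ≤ M := by
      have h5 : (r : ℝ) ≤ p' / α := by
        rw [le_div_iff₀ hα0]
        rw [le_div_iff₀ hr0] at k5
        linarith
      exact_mod_cast h5.trans hM
    have hp1 : 1 ≤ p' := by
      rcases Nat.eq_zero_or_pos p' with h | h
      · rw [h] at k1; omega
      · exact h
    have hs : s ≤ q' * M + 1 := by
      calc s ≤ p' * s := Nat.le_mul_of_pos_left s hp1
        _ = q' * r + 1 := k1
        _ ≤ q' * M + 1 := by
            have := Nat.mul_le_mul_left q' hr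
            omega
    refine ⟨?_, ?_, ?_, ?_⟩ <;> simp only <;> omega
  have e3 : ∀ p r : ℕ, {z : ℕ × ℕ × ℕ × ℕ | Neighbours α z.1 z.2.1 z.2.2.1 z.2.2.2 ∧ z.1 = p ∧
      z.2.2.1 = r}.Finite := by
    intro p r
    obtain ⟨M, hM⟩ := exists_nat_ge (1 / |(p : ℝ) / r - α|)
    refine (fin_box (M + p * M + p + r)).subset ?_
    rintro ⟨p', q, r', s⟩ ⟨⟨k1, k2, k3, k4, k5⟩, k6, k7⟩
    simp only at k1 k2 k3 k4 k5 k6 k7
    subst k6
    subst k7
    have hr0 : (0 : ℝ) < r' := by exact_mod_cast k2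
    have hr1 : (1 : ℝ) ≤ r' := by exact_mod_cast k2
    have hs0 : (0 : ℝ) < s := by exact_mod_cast k3
    have hne : (p' : ℝ) / r' ≠ α := by
      intro h
      apply hα
      refine ⟨(p' : ℚ) / r', ?_⟩
      push_cast
      exact h
    have hpos' : 0 < (p' : ℝ) / r' - α := by
      rcases lt_or_eq_of_le k5 with h | h
      · linarith
      · exact absurd h.symm hne
    rw [abs_of_pos hpos'] at hM
    have hs : s ≤ M := by
      have e := diff_eq k1 k2 k3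
      have h5 : (p' : ℝ) / r' - α ≤ 1 / s := by
        have : 1 / ((r' : ℝ) * s) ≤ 1 / s := by
          apply one_div_le_one_div_of_le hs0
          nlinarith
        linarith
      have h6 : (s : ℝ) ≤ 1 / ((p' : ℝ) / r' - α) := by
        rw [le_div_iff₀ hpos']
        rw [le_div_iff₀ hs0] at h5
        linarith
      exact_mod_cast h6.trans hM
    have hq : q ≤ p' * M := by
      have h7 : q * r' + 1 ≤ p' * M := by
        rw [← k1]
        exact Nat.mul_le_mul_left _ hs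
      have h8 : q ≤ q * r' := Nat.le_mul_of_pos_right q k2
      omega
    refine ⟨?_, ?_, ?_, ?_⟩ <;> simp only <;> omega
  have e4 : ∀ q s : ℕ, {z : ℕ × ℕ × ℕ × ℕ | Neighbours α z.1 z.2.1 z.2.2.1 z.2.2.2 ∧ z.2.1 = q ∧
      z.2.2.2 = s}.Finite := by
    intro q s
    obtain ⟨M, hM⟩ := exists_nat_ge (1 / |α - (q : ℝ) / s|)
    refine (fin_box (M + (q * M + 1) + q + s)).subset ?_
    rintro ⟨p, q', r, s'⟩ ⟨⟨k1, k2, k3, k4, k5⟩, k6, k7⟩
    simp only at k1 k2 k3 k4 k5 k6 k7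
    subst k6
    subst k7
    have hr0 : (0 : ℝ) < r := by exact_mod_cast k2
    have hs0 : (0 : ℝ) < s' := by exact_mod_cast k3
    have hs1 : (1 : ℝ) ≤ s' := by exact_mod_cast k3
    have hne : (q' : ℝ) / s' ≠ α := by
      intro h
      apply hα
      refine ⟨(q' : ℚ) / s', ?_⟩
      push_cast
      exact h
    have hpos' : 0 < α - (q' : ℝ) / s' := by
      rcases lt_or_eq_of_le k4 with h | h
      · linarith
      · exact absurd h hne
    rw [abs_of_pos hpos'] at hM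
    have hr : r ≤ M := by
      have e := diff_eq k1 k2 k3
      have h5 : α - (q' : ℝ) / s' ≤ 1 / r := by
        have : 1 / ((r : ℝ) * s') ≤ 1 / r := by
          apply one_div_le_one_div_of_le hr0
          nlinarith
        linarith
      have h6 : (r : ℝ) ≤ 1 / (α - (q' : ℝ) / s') := by
        rw [le_div_iff₀ hpos']
        rw [le_div_iff₀ hr0] at h5
        linarith
      exact_mod_cast h6.trans hM
    have hp : p ≤ q' * M + 1 := by
      calc p ≤ p * s' := Nat.le_mul_of_pos_right p k3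
        _ = q' * r + 1 := k1
        _ ≤ q' * M + 1 := by
            have := Nat.mul_le_mul_left q' hr
            omega
    refine ⟨?_, ?_, ?_, ?_⟩ <;> simp only <;> omega
  refine (((f1.biUnion (fun z _ => e1 z.1 z.2)).union (f2.biUnion (fun z _ => e2 z.1 z.2))).union
    ((f3.biUnion (fun z _ => e3 z.1 z.2)).union (f4.biUnion (fun z _ => e4 z.1 z.2)))).subset ?_
  rintro ⟨p, q, r, s⟩ ⟨hN, h5⟩
  simp only at hN h5
  rcases h5 with h5 | h5 | h5 | h5
  · left; right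
    rw [Set.mem_iUnion₂]
    exact ⟨(p, q), ⟨h5, r, s, hN⟩, hN, rfl, rfl⟩
  · left; left
    rw [Set.mem_iUnion₂]
    exact ⟨(r, s), ⟨h5, p, q, hN⟩, hN, rfl, rfl⟩
  · right; left
    rw [Set.mem_iUnion₂]
    exact ⟨(p, r), ⟨h5, q, s, hN⟩, hN, rfl, rfl⟩
  · right; right
    rw [Set.mem_iUnion₂]
    exact ⟨(q, s), ⟨h5, p, r, hN⟩, hN, rfl, rfl⟩


/-- facts on neighbours of a positive real number -/
theorem nb_facts {α : ℝ} (hα0 : 0 < α) {p q r s : ℕ} (h : Neighbours α p q r s) :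
    1 ≤ p ∧ (p : ℝ) ≤ (α + 1) * r ∧ (q : ℝ) ≤ α * s ∧ (r : ℝ) ≤ p / α ∧ |(p : ℝ) / r - α| ≤ 1 / (r * s) ∧
      |(q : ℝ) / s - α| ≤ 1 / (r * s) := by
  obtain ⟨h1, h2, h3, h4, h5⟩ := h
  have hr0 : (0 : ℝ) < r := by exact_mod_cast h2
  have hs0 : (0 : ℝ) < s := by exact_mod_cast h3
  have hr1 : (1 : ℝ) ≤ r := by exact_mod_cast h2
  have hs1 : (1 : ℝ) ≤ s := by exact_mod_cast h3
  have e := diff_eq h1 h2 h3
  have h6 : 1 / ((r : ℝ) * s) ≤ 1 := by
    rw [div_le_one (by positivity)]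
    nlinarith
  refine ⟨?_, ?_, ?_, ?_, ?_, ?_⟩
  · rcases Nat.eq_zero_or_pos p with h | h
    · rw [h] at h1; omega
    · exact h
  · have : (p : ℝ) / r ≤ α + 1 := by linarith
    rwa [div_le_iff₀ hr0] at this
  · rwa [div_le_iff₀ hs0] at h4
  · rw [le_div_iff₀ hα0]
    rw [le_div_iff₀ hr0] at h5
    linarith
  · rw [abs_of_nonneg (by linarith)]
    linarith
  · rw [abs_of_nonpos (by linarith)]
    linarith

theorem cop_of_det {p q r s : ℕ} (h : p * s = q * r + 1) : IsCoprime (s : ℤ) (r : ℤ) := by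
  have h' : (p : ℤ) * s = q * r + 1 := by exact_mod_cast h
  exact ⟨p, -q, by linarith⟩

theorem cop_of_det' {p q r s : ℕ} (h : p * s = q * r + 1) : IsCoprime (q : ℤ) (p : ℤ) := by
  have h' : (p : ℤ) * s = q * r + 1 := by exact_mod_cast h
  exact ⟨-r, s, by linarith⟩

theorem mod_eq_of {m a b c : ℤ} (hc : IsCoprime c m) (h : m ∣ (a - b) * c) : a % m = b % m := by
  have h1 : m ∣ a - b := hc.symm.dvd_of_dvd_mul_right h
  exact (Int.emod_emod_of_dvd _ (dvd_refl m)).symm.trans (by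
    rw [Int.emod_emod_of_dvd _ (dvd_refl m)]
    exact ((Int.modEq_iff_dvd.2 (by rw [← neg_sub]; exact (dvd_neg.2 h1))) : a ≡ b [ZMOD m]))

/-- the denominators -/
theorem part_rs {β : ℝ} (hβ : 0 ≤ β) {B : Set (ℕ × ℕ)} (hB : Thin β B) :
    Generic β (fun α => 0 < α → {z : ℕ × ℕ | z ∈ B ∧ ∃ p q : ℕ, Neighbours α p q z.1 z.2}.Finite) := by
  have h := Generic.all (ι := ℕ) (s := β) (fun M : ℕ => generic_near (T := ℕ × ℕ × ℕ × ℕ)
    (H := fun t => ((max (max t.2.2.1 t.2.2.2) 1 : ℕ) : ℝ)) (fun t => by exact_mod_cast le_max_right _ _)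
    (Bad := fun t => t.1 * t.2.2.2 = t.2.1 * t.2.2.1 + 1 ∧ 1 ≤ t.2.2.1 ∧ 1 ≤ t.2.2.2 ∧ (t.2.2.1, t.2.2.2) ∈ B ∧
      t.1 ≤ M * t.2.2.1) hβ (count_of_inj hβ hB (fun t => (t.2.2.1, t.2.2.2)) (fun t => t.1 / t.2.2.1) M (by
        rintro ⟨p, q, r, s⟩ ⟨h1, h2, h3, h4, h5⟩
        simp only at h1 h2 h3 h4 h5 ⊢
        refine ⟨h4, h2, h3, ?_, ?_, ?_⟩
        · exact_mod_cast (le_max_left r s).trans (le_max_left _ _)
        · exact_mod_cast (le_max_right r s).trans (le_max_left _ _)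
        · exact Nat.div_le_of_le_mul (by rw [mul_comm]; exact h5)) (by
        rintro ⟨p, q, r, s⟩ ⟨p', q', r', s'⟩ ⟨h1, h2, h3, -, -⟩ ⟨h1', -, -, -, -⟩ e1 e2
        simp only [Prod.mk.injEq] at h1 h2 h3 h1' e1 e2
        obtain ⟨rfl, rfl⟩ := e1
        have hr0 : 0 < r := h2
        have k1 : (r : ℤ) ∣ ((p : ℤ) - p') * s := by
          refine ⟨(q : ℤ) - q', ?_⟩
          have j1 : (p : ℤ) * s = q * r + 1 := by exact_mod_cast h1
          have j2 : (p' : ℤ) * s = q' * r + 1 := by exact_mod_cast h1'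
          linarith
        have k2 := mod_eq_of (cop_of_det h1) k1
        have k3 : p % r = p' % r := by exact_mod_cast k2
        have k4 : p = p' := by rw [← Nat.div_add_mod p r, ← Nat.div_add_mod p' r, e2, k3]
        subst k4
        have k5 : q * r = q' * r := by omega
        rw [Nat.eq_of_mul_eq_mul_right hr0 k5]))
    (fun t => (t.1 : ℝ) / t.2.2.1))
  refine h.mono (fun α hα hα0 => ?_)
  obtain ⟨M, hM⟩ := exists_nat_ge (α + 1)
  refine ((hα M 1).image (fun t => (t.2.2.1, t.2.2.2))).subset ?_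
  rintro ⟨r, s⟩ ⟨h1, p, q, h2⟩
  obtain ⟨k1, k2, k3, k4, k5, k6⟩ := nb_facts hα0 h2
  obtain ⟨h3, h4, h5, h6, h7⟩ := h2
  simp only at h1 h3 h4 h5 k1 k2 k3 k4 k5 k6
  refine ⟨(p, q, r, s), ⟨?_, h3, h4, h5, h1, ?_⟩, rfl⟩
  · simp only
    refine k5.trans ?_
    have hr1 : (1 : ℝ) ≤ r := by exact_mod_cast h4
    have hs1 : (1 : ℝ) ≤ s := by exact_mod_cast h5
    apply one_div_le_one_div_of_le
    · exact_mod_cast (by omega : 0 < max (max r s) 1)
    · rw [max_eq_left (h4.trans (le_max_left r s))]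
      rw [Nat.cast_max]
      apply max_le
      · nlinarith
      · nlinarith
  · simp only
    have : (p : ℝ) ≤ M * r := k2.trans (mul_le_mul_of_nonneg_right hM (Nat.cast_nonneg r))
    exact_mod_cast this

/-- the numerators -/
theorem part_pq {β : ℝ} (hβ : 0 ≤ β) {B : Set (ℕ × ℕ)} (hB : Thin β B) (hpos : ∀ z ∈ B, 1 ≤ z.1 ∧ 1 ≤ z.2) :
    Generic β (fun α => 0 < α → {z : ℕ × ℕ | z ∈ B ∧ ∃ r s : ℕ, Neighbours α z.1 z.2 r s}.Finite) := by
  have h := Generic.all (ι := ℕ) (s := β) (fun M : ℕ => generic_near (T := ℕ × ℕ × ℕ × ℕ)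
    (H := fun t => ((max (max t.1 t.2.1) 1 : ℕ) : ℝ)) (fun t => by exact_mod_cast le_max_right _ _)
    (Bad := fun t => t.1 * t.2.2.2 = t.2.1 * t.2.2.1 + 1 ∧ 1 ≤ t.1 ∧ (t.1, t.2.1) ∈ B ∧
      t.2.2.1 ≤ M * t.1) hβ (count_of_inj hβ hB (fun t => (t.1, t.2.1)) (fun t => t.2.2.1 / t.1) M (by
        rintro ⟨p, q, r, s⟩ ⟨h1, h2, h4, h5⟩
        simp only at h1 h2 h4 h5 ⊢
        refine ⟨h4, h2, (hpos _ h4).2, ?_, ?_, ?_⟩
        · exact_mod_cast (le_max_left p q).trans (le_max_left _ _)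
        · exact_mod_cast (le_max_right p q).trans (le_max_left _ _)
        · exact Nat.div_le_of_le_mul (by rw [mul_comm]; exact h5)) (by
        rintro ⟨p, q, r, s⟩ ⟨p', q', r', s'⟩ ⟨h1, h2, -, -⟩ ⟨h1', -, -, -⟩ e1 e2
        simp only [Prod.mk.injEq] at h1 h2 h1' e1 e2
        obtain ⟨rfl, rfl⟩ := e1
        have hp0 : 0 < p := h2
        have k1 : (p : ℤ) ∣ ((r : ℤ) - r') * q := by
          refine ⟨(s : ℤ) - s', ?_⟩
          have j1 : (p : ℤ) * s = q * r + 1 := by exact_mod_cast h1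
          have j2 : (p : ℤ) * s' = q * r' + 1 := by exact_mod_cast h1'
          linarith
        have k2 := mod_eq_of (cop_of_det' h1) k1
        have k3 : r % p = r' % p := by exact_mod_cast k2
        have k4 : r = r' := by rw [← Nat.div_add_mod r p, ← Nat.div_add_mod r' p, e2, k3]
        subst k4
        have k5 : p * s = p * s' := by omega
        rw [Nat.eq_of_mul_eq_mul_left hp0 k5]))
    (fun t => (t.1 : ℝ) / t.2.2.1))
  refine h.mono (fun α hα hα0 => ?_)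
  obtain ⟨M, hM⟩ := exists_nat_ge (1 / α)
  refine ((hα M (α + 1)).image (fun t => (t.1, t.2.1))).subset ?_
  rintro ⟨p, q⟩ ⟨h1, r, s, h2⟩
  obtain ⟨k1, k2, k3, k4, k5, k6⟩ := nb_facts hα0 h2
  obtain ⟨h3, h4, h5, h6, h7⟩ := h2
  simp only at h1 h3 h4 h5 k1 k2 k3 k4 k5 k6
  refine ⟨(p, q, r, s), ⟨?_, h3, k1, h1, ?_⟩, rfl⟩
  · simp only
    refine k5.trans ?_
    have hr1 : (1 : ℝ) ≤ r := by exact_mod_cast h4
    have hs1 : (1 : ℝ) ≤ s := by exact_mod_cast h5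
    have hr0 : (0 : ℝ) < r := by linarith
    have hs0 : (0 : ℝ) < s := by linarith
    have hH : (0 : ℝ) < ((max (max p q) 1 : ℕ) : ℝ) := by exact_mod_cast (by omega : 0 < max (max p q) 1)
    rw [div_le_div_iff₀ (by positivity) hH, one_mul, max_eq_left (k1.trans (le_max_left p q)), Nat.cast_max]
    apply max_le
    · calc (p : ℝ) ≤ (α + 1) * r := k2
        _ ≤ (α + 1) * (r * s) := by
            apply mul_le_mul_of_nonneg_left _ (by linarith)
            nlinarith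
    · calc (q : ℝ) ≤ α * s := k3
        _ ≤ (α + 1) * (r * s) := by
            have : (s : ℝ) ≤ r * s := by nlinarith
            nlinarith
  · simp only
    have hp0 : (0 : ℝ) ≤ p := Nat.cast_nonneg p
    have : (r : ℝ) ≤ M * p := by
      refine k4.trans ?_
      rw [div_eq_mul_inv, mul_comm]
      apply mul_le_mul_of_nonneg_right _ hp0
      rw [← one_div]
      exact hM
    exact_mod_cast this

/-- the upper fraction -/
theorem part_pr {β : ℝ} (hβ : 0 ≤ β) {B : Set (ℕ × ℕ)} (hB : Thin β B) (hpos : ∀ z ∈ B, 1 ≤ z.1 ∧ 1 ≤ z.2) :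
    Generic β (fun α => 0 < α → {z : ℕ × ℕ | z ∈ B ∧ ∃ q s : ℕ, Neighbours α z.1 q z.2 s}.Finite) := by
  have h := generic_near (T := ℕ × ℕ) (s := β)
    (H := fun t => ((max (max t.1 t.2) 1 : ℕ) : ℝ)) (fun t => by exact_mod_cast le_max_right _ _)
    (Bad := fun t => t ∈ B) hβ (count_of_inj hβ hB (fun t => t) (fun _ => 0) 0 (by
        rintro ⟨p, q⟩ h4
        refine ⟨h4, (hpos _ h4).1, (hpos _ h4).2, ?_, ?_, le_rfl⟩
        · exact_mod_cast (le_max_left p q).trans (le_max_left _ _)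
        · exact_mod_cast (le_max_right p q).trans (le_max_left _ _)) (fun t t' _ _ e _ => e))
    (fun t => (t.1 : ℝ) / t.2)
  refine h.mono (fun α hα hα0 => (hα (α + 1)).subset ?_)
  rintro ⟨p, r⟩ ⟨h1, q, s, h2⟩
  obtain ⟨k1, k2, k3, k4, k5, k6⟩ := nb_facts hα0 h2
  obtain ⟨h3, h4, h5, h6, h7⟩ := h2
  simp only at h1 h3 h4 h5 k1 k2 k3 k4 k5 k6
  refine ⟨?_, h1⟩
  simp only
  refine k5.trans ?_
  have hr1 : (1 : ℝ) ≤ r := by exact_mod_cast h4
  have hs1 : (1 : ℝ) ≤ s := by exact_mod_cast h5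
  have hr0 : (0 : ℝ) < r := by linarith
  have hs0 : (0 : ℝ) < s := by linarith
  have hH : (0 : ℝ) < ((max (max p r) 1 : ℕ) : ℝ) := by exact_mod_cast (by omega : 0 < max (max p r) 1)
  rw [div_le_div_iff₀ (by positivity) hH, one_mul, max_eq_left (k1.trans (le_max_left p r)), Nat.cast_max]
  apply max_le
  · calc (p : ℝ) ≤ (α + 1) * r := k2
      _ ≤ (α + 1) * (r * s) := by
          apply mul_le_mul_of_nonneg_left _ (by linarith)
          nlinarith
  · have : (r : ℝ) ≤ r * s := by nlinarith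
    nlinarith

/-- the lower fraction -/
theorem part_qs {β : ℝ} (hβ : 0 ≤ β) {B : Set (ℕ × ℕ)} (hB : Thin β B) (hpos : ∀ z ∈ B, 1 ≤ z.1 ∧ 1 ≤ z.2) :
    Generic β (fun α => 0 < α → {z : ℕ × ℕ | z ∈ B ∧ ∃ p r : ℕ, Neighbours α p z.1 r z.2}.Finite) := by
  have h := generic_near (T := ℕ × ℕ) (s := β)
    (H := fun t => ((max (max t.1 t.2) 1 : ℕ) : ℝ)) (fun t => by exact_mod_cast le_max_right _ _)
    (Bad := fun t => t ∈ B) hβ (count_of_inj hβ hB (fun t => t) (fun _ => 0) 0 (by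
        rintro ⟨p, q⟩ h4
        refine ⟨h4, (hpos _ h4).1, (hpos _ h4).2, ?_, ?_, le_rfl⟩
        · exact_mod_cast (le_max_left p q).trans (le_max_left _ _)
        · exact_mod_cast (le_max_right p q).trans (le_max_left _ _)) (fun t t' _ _ e _ => e))
    (fun t => (t.1 : ℝ) / t.2)
  refine h.mono (fun α hα hα0 => (hα (α + 1)).subset ?_)
  rintro ⟨q, s⟩ ⟨h1, p, r, h2⟩
  obtain ⟨k1, k2, k3, k4, k5, k6⟩ := nb_facts hα0 h2
  obtain ⟨h3, h4, h5, h6, h7⟩ := h2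
  simp only at h1 h3 h4 h5 k1 k2 k3 k4 k5 k6
  refine ⟨?_, h1⟩
  simp only
  refine k6.trans ?_
  have hr1 : (1 : ℝ) ≤ r := by exact_mod_cast h4
  have hs1 : (1 : ℝ) ≤ s := by exact_mod_cast h5
  have hr0 : (0 : ℝ) < r := by linarith
  have hs0 : (0 : ℝ) < s := by linarith
  have hH : (0 : ℝ) < ((max (max q s) 1 : ℕ) : ℝ) := by exact_mod_cast (by omega : 0 < max (max q s) 1)
  rw [div_le_div_iff₀ (by positivity) hH, one_mul, max_eq_left (h5.trans (le_max_right q s)), Nat.cast_max]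
  have h8 : (s : ℝ) ≤ r * s := by nlinarith
  apply max_le
  · nlinarith
  · nlinarith

/-- **The Farey intervals around a real number avoid thin sets of pairs.** -/
theorem farey_generic {β : ℝ} (hβ : 0 ≤ β) {B : Set (ℕ × ℕ)} (hB : Thin β B) (hpos : ∀ z ∈ B, 1 ≤ z.1 ∧ 1 ≤ z.2) :
    Generic β (fun α => 0 < α → {z : ℕ × ℕ × ℕ × ℕ | Neighbours α z.1 z.2.1 z.2.2.1 z.2.2.2 ∧
        ((z.1, z.2.1) ∈ B ∨ (z.2.2.1, z.2.2.2) ∈ B ∨ (z.1, z.2.2.1) ∈ B ∨ (z.2.1, z.2.2.2) ∈ B)}.Finite) := by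
  have h := (generic_irrational hβ).and ((part_rs hβ hB).and ((part_pq hβ hB hpos).and
    ((part_pr hβ hB hpos).and (part_qs hβ hB hpos))))
  refine h.mono (fun α hα hα0 => ?_)
  obtain ⟨h1, h2, h3, h4, h5⟩ := hα
  exact combine h1 hα0 (h2 hα0) (h3 hα0) (h4 hα0) (h5 hα0)

end Run7.h469.EU
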