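import Pool.Agent.Run7.h469.EU.Far

/-! Neighbouring fractions around real numbers, chains of intervals with a common end. -/

set_option autoImplicit false

namespace Run7.h469.EU

open Finset Filter Topology MeasureTheory

/-- the larger one of `r`, `s` is not too large -/
def Bal (β : ℝ) (r s : ℕ) : Prop := ((max r s : ℕ) : ℝ) ^ (β / 2) < ((min r s : ℕ) : ℝ)

theorem step_r {α : ℝ} {p q r s : ℕ} (h : Neighbours α p q r s) (hrs : s < r) : Neighbours α (p - q) q (r - s) s := by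
  obtain ⟨h1, h2, h3, h4, h5⟩ := h
  have hr0 : (0 : ℝ) < r := by exact_mod_cast h2
  have hs0 : (0 : ℝ) < s := by exact_mod_cast h3
  obtain ⟨w, rfl⟩ := Nat.exists_eq_add_of_lt hrs
  have hpq : q ≤ p := by
    by_contra hcon
    have h6 : p * s ≤ q * s := Nat.mul_le_mul_right s (by omega)
    have h7 : q * s ≤ q * (s + w + 1) := Nat.mul_le_mul_left q (by omega)
    omega
  obtain ⟨x, rfl⟩ := Nat.exists_eq_add_of_le hpq
  have e1 : q + x - q = x := by omega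
  have e2 : s + w + 1 - s = w + 1 := by omega
  rw [e1, e2]
  have h8 : x * s = q * (w + 1) + 1 := by
    have : (q + x) * s = q * s + x * s := by ring
    have h' : q * (s + w + 1) + 1 = q * s + (q * (w + 1) + 1) := by ring
    omega
  refine ⟨h8, by omega, h3, h4, h5.trans ?_⟩
  have hw0 : (0 : ℝ) < ((w + 1 : ℕ) : ℝ) := by positivity
  rw [div_le_div_iff₀ hr0 hw0]
  have h9 : (x : ℝ) * s = q * (w + 1) + 1 := by exact_mod_cast h8
  push_cast
  nlinarith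

theorem step_s {α : ℝ} {p q r s : ℕ} (h : Neighbours α p q r s) (hrs : r < s) :
    Neighbours α p (q - p) r (s - r) := by
  obtain ⟨h1, h2, h3, h4, h5⟩ := h
  have hr0 : (0 : ℝ) < r := by exact_mod_cast h2
  have hs0 : (0 : ℝ) < s := by exact_mod_cast h3
  obtain ⟨w, rfl⟩ := Nat.exists_eq_add_of_lt hrs
  have hp1 : 1 ≤ p := by
    rcases Nat.eq_zero_or_pos p with h | h
    · rw [h] at h1; omega
    · exact h
  have hpq : p ≤ q := by
    by_contra hcon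
    have h6 : q * r + r ≤ p * r := by
      calc q * r + r = (q + 1) * r := by ring
        _ ≤ p * r := Nat.mul_le_mul_right r (by omega)
    have h7 : p * (r + w + 1) = p * r + p * (w + 1) := by ring
    have h8 : 1 ≤ p * (w + 1) := Nat.mul_pos hp1 (by omega)
    have h9 : p * (w + 1) ≤ 1 := by omega
    omega
  obtain ⟨x, rfl⟩ := Nat.exists_eq_add_of_le hpq
  have e1 : p + x - p = x := by omega
  have e2 : r + w + 1 - r = w + 1 := by omega
  rw [e1, e2]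
  have h8 : p * (w + 1) = x * r + 1 := by
    have : (p + x) * r = p * r + x * r := by ring
    have h' : p * (r + w + 1) = p * r + p * (w + 1) := by ring
    omega
  refine ⟨h8, h2, by omega, le_trans ?_ h4, h5⟩
  have hw0 : (0 : ℝ) < ((w + 1 : ℕ) : ℝ) := by positivity
  rw [div_le_div_iff₀ hw0 hs0]
  have h9 : (p : ℝ) * (w + 1) = x * r + 1 := by exact_mod_cast h8
  push_cast
  nlinarith

theorem down_r {α : ℝ} {q s U : ℕ} (hU : 1 ≤ U) : ∀ (r p : ℕ), Neighbours α p q r s → U ≤ r →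
    ∃ p' r', U ≤ r' ∧ r' < U + s ∧ Neighbours α p' q r' s := by
  intro r
  induction r using Nat.strong_induction_on with
  | _ r ih =>
    intro p h hr
    by_cases hc : r < U + s
    · exact ⟨p, r, hr, hc, h⟩
    · have hs := h.2.2.1
      exact ih (r - s) (by omega) (p - q) (step_r h (by omega)) (by omega)

theorem down_s {α : ℝ} {p r U : ℕ} (hU : 1 ≤ U) : ∀ (s q : ℕ), Neighbours α p q r s → U ≤ s →
    ∃ q' s', U ≤ s' ∧ s' < U + r ∧ Neighbours α p q' r s' := by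
  intro s
  induction s using Nat.strong_induction_on with
  | _ s ih =>
    intro q h hs
    by_cases hc : s < U + r
    · exact ⟨q, s, hs, hc, h⟩
    · have hr := h.2.1
      exact ih (s - r) (by omega) (q - p) (step_s h (by omega)) (by omega)

theorem down_s0 {α : ℝ} {p r : ℕ} : ∀ (s q : ℕ), Neighbours α p q r s →
    ∃ q' s', 1 ≤ s' ∧ s' ≤ r ∧ Neighbours α p q' r s' := by
  intro s
  induction s using Nat.strong_induction_on with
  | _ s ih =>
    intro q h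
    by_cases hc : s ≤ r
    · exact ⟨q, s, h.2.2.1, hc, h⟩
    · have hr := h.2.1
      exact ih (s - r) (by omega) (q - p) (step_s h (by omega))

theorem down_r0 {α : ℝ} {q s : ℕ} : ∀ (r p : ℕ), Neighbours α p q r s →
    ∃ p' r', 1 ≤ r' ∧ r' ≤ s ∧ Neighbours α p' q r' s := by
  intro r
  induction r using Nat.strong_induction_on with
  | _ r ih =>
    intro p h
    by_cases hc : r ≤ s
    · exact ⟨p, r, h.2.1, hc, h⟩
    · have hs := h.2.2.1
      exact ih (r - s) (by omega) (p - q) (step_r h (by omega))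

/-- the first intervals of the chains with a common end -/
def First (β : ℝ) (r s : ℕ) : Prop :=
  ∃ k : ℕ, (2 ^ k ≤ r ∧ r < 2 ^ k + s ∧ (s : ℝ) ≤ ((2 : ℝ) ^ (k + 1)) ^ (β / 2)) ∨
    (2 ^ k ≤ s ∧ s < 2 ^ k + r ∧ (r : ℝ) ≤ ((2 : ℝ) ^ (k + 1)) ^ (β / 2))

theorem to_first {β α : ℝ} (hβ : 0 ≤ β) {p q r s : ℕ} (h : Neighbours α p q r s) (hb : ¬ Bal β r s) :
    ∃ p' q' r' s', Neighbours α p' q' r' s' ∧ First β r' s' ∧ max r s ≤ 2 * max r' s' := by
  unfold Bal at hb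
  push Not at hb
  obtain ⟨-, hr1, hs1, -, -⟩ := id h
  rcases le_total s r with hsr | hrs
  · rw [max_eq_left hsr, min_eq_right hsr] at hb
    obtain ⟨k, hk⟩ : ∃ k, k = Nat.log 2 r := ⟨_, rfl⟩
    have h1 : 2 ^ k ≤ r := by rw [hk]; exact Nat.pow_log_le_self 2 (by omega)
    have h2 : r < 2 ^ (k + 1) := by rw [hk]; exact Nat.lt_pow_succ_log_self (by norm_num) _
    obtain ⟨p', r', h3, h4, h5⟩ := down_r (Nat.one_le_two_pow (n := k)) r p h h1
    refine ⟨p', q, r', s, h5, ⟨k, Or.inl ⟨h3, h4, hb.trans ?_⟩⟩, ?_⟩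
    · apply Real.rpow_le_rpow (by positivity) _ (by linarith)
      exact_mod_cast h2.le
    · rw [max_eq_left hsr]
      have : 2 ^ (k + 1) = 2 * 2 ^ k := by ring
      have := le_max_left r' s
      omega
  · rw [max_eq_right hrs, min_eq_left hrs] at hb
    obtain ⟨k, hk⟩ : ∃ k, k = Nat.log 2 s := ⟨_, rfl⟩
    have h1 : 2 ^ k ≤ s := by rw [hk]; exact Nat.pow_log_le_self 2 (by omega)
    have h2 : s < 2 ^ (k + 1) := by rw [hk]; exact Nat.lt_pow_succ_log_self (by norm_num) _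
    obtain ⟨q', s', h3, h4, h5⟩ := down_s (Nat.one_le_two_pow (n := k)) s q h h1
    refine ⟨p, q', r, s', h5, ⟨k, Or.inr ⟨h3, h4, hb.trans ?_⟩⟩, ?_⟩
    · apply Real.rpow_le_rpow (by positivity) _ (by linarith)
      exact_mod_cast h2.le
    · rw [max_eq_right hrs]
      have : 2 ^ (k + 1) = 2 * 2 ^ k := by ring
      have := le_max_right r s'
      omega

/-- counting the balanced quadruples -/
theorem count_bal {β : ℝ} (hβ : 0 ≤ β) {B : Set (ℕ × ℕ)} (hB : Thin β B) {Bad : ℕ × ℕ × ℕ × ℕ → Prop}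
    (f : ℕ × ℕ × ℕ × ℕ → ℕ × ℕ) (g : ℕ × ℕ × ℕ × ℕ → ℕ) (M : ℕ) (hM : 1 ≤ M)
    (h : ∀ t, Bad t → f t ∈ B ∧ 1 ≤ (f t).1 ∧ 1 ≤ (f t).2 ∧ (f t).1 ≤ M * max t.2.2.1 t.2.2.2 ∧
      (f t).2 ≤ M * max t.2.2.1 t.2.2.2 ∧ g t ≤ M ∧ Bal β t.2.2.1 t.2.2.2 ∧ 1 ≤ t.2.2.1)
    (hinj : ∀ t t', Bad t → Bad t' → f t = f t' → g t = g t' → t = t') :
    ∀ ε : ℝ, 0 < ε → ∃ C : ℝ, ∀ X : ℝ, 1 ≤ X →
      {t | Bad t ∧ ((max (t.2.2.1 * t.2.2.2) 1 : ℕ) : ℝ) ≤ X}.Finite ∧
      (({t | Bad t ∧ ((max (t.2.2.1 * t.2.2.2) 1 : ℕ) : ℝ) ≤ X}.ncard : ℕ) : ℝ) ≤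
        C * X ^ (2 * β / (2 + β) + ε) := by
  classical
  intro ε hε
  obtain ⟨C, hC⟩ := count_of_inj hβ hB (Bad := Bad) (H := fun t => ((M * max t.2.2.1 t.2.2.2 : ℕ) : ℝ)) f g M
    (fun t ht => by
      obtain ⟨h1, h2, h3, h4, h5, h6, -, -⟩ := h t ht
      exact ⟨h1, h2, h3, by exact_mod_cast h4, by exact_mod_cast h5, h6⟩) hinj ε hε
  have hM0 : (1 : ℝ) ≤ M := by exact_mod_cast hM
  refine ⟨|C| * (M : ℝ) ^ (β + ε), fun X hX => ?_⟩
  have hX0 : 0 < X := by linarith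
  obtain ⟨Y, hY⟩ : ∃ Y : ℝ, Y = X ^ (2 / (2 + β)) := ⟨_, rfl⟩
  have hY1 : 1 ≤ Y := by rw [hY]; exact Real.one_le_rpow hX (by positivity)
  have hMY : 1 ≤ M * Y := by nlinarith
  obtain ⟨h1, h2⟩ := hC (M * Y) hMY
  have hsub : {t | Bad t ∧ ((max (t.2.2.1 * t.2.2.2) 1 : ℕ) : ℝ) ≤ X} ⊆
      {t | Bad t ∧ ((M * max t.2.2.1 t.2.2.2 : ℕ) : ℝ) ≤ M * Y} := by
    rintro ⟨p, q, r, s⟩ ⟨h3, h4⟩
    obtain ⟨-, -, -, -, -, -, h5, h6⟩ := h _ h3
    refine ⟨h3, ?_⟩
    unfold Bal at h5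
    simp only at h4 h5 h6 ⊢
    push_cast
    apply mul_le_mul_of_nonneg_left _ (by linarith)
    obtain ⟨m, hm⟩ : ∃ m, m = max r s := ⟨_, rfl⟩
    have h7 : ((m : ℕ) : ℝ) * ((min r s : ℕ) : ℝ) ≤ X := by
      have : m * min r s = r * s := by
        rw [hm]
        exact max_mul_min r s
      refine le_trans ?_ h4
      have h8 : m * min r s ≤ max (r * s) 1 := by rw [this]; exact le_max_left _ _
      exact_mod_cast h8
    rw [← hm] at h5
    have hm1 : (1 : ℝ) ≤ ((m : ℕ) : ℝ) := by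
      have : 1 ≤ m := by rw [hm]; exact h6.trans (le_max_left r s)
      exact_mod_cast this
    have h9 : ((m : ℕ) : ℝ) ^ (1 + β / 2) ≤ X := by
      rw [Real.rpow_add (by linarith), Real.rpow_one]
      refine le_trans ?_ h7
      exact mul_le_mul_of_nonneg_left h5.le (by linarith)
    have h10 : ((m : ℕ) : ℝ) ≤ Y := by
      rw [hY]
      calc ((m : ℕ) : ℝ) = (((m : ℕ) : ℝ) ^ (1 + β / 2)) ^ (2 / (2 + β)) := by
            rw [← Real.rpow_mul (by linarith)]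
            have : (1 + β / 2) * (2 / (2 + β)) = 1 := by field_simp
            rw [this, Real.rpow_one]
        _ ≤ X ^ (2 / (2 + β)) := Real.rpow_le_rpow (by positivity) h9 (by positivity)
    rw [hm] at h10
    rw [← Nat.cast_max]
    exact h10
  refine ⟨h1.subset hsub, ?_⟩
  calc _ ≤ (({t | Bad t ∧ ((M * max t.2.2.1 t.2.2.2 : ℕ) : ℝ) ≤ M * Y}.ncard : ℕ) : ℝ) :=
        Nat.cast_le.2 (Set.ncard_le_ncard hsub h1)
    _ ≤ C * (M * Y) ^ (β + ε) := h2
    _ ≤ |C| * (M * Y) ^ (β + ε) := mul_le_mul_of_nonneg_right (le_abs_self C) (by positivity)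
    _ = |C| * (M : ℝ) ^ (β + ε) * X ^ (2 / (2 + β) * (β + ε)) := by
        rw [Real.mul_rpow (by linarith) (by linarith), hY, ← Real.rpow_mul hX0.le]
        ring
    _ ≤ |C| * (M : ℝ) ^ (β + ε) * X ^ (2 * β / (2 + β) + ε) := by
        apply mul_le_mul_of_nonneg_left _ (by positivity)
        apply Real.rpow_le_rpow_of_exponent_le hX
        have h3 : 2 / (2 + β) * ε ≤ ε := by
          have : 2 / (2 + β) ≤ 1 := by rw [div_le_one (by linarith)]; linarith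
          nlinarith
        have h4 : 2 / (2 + β) * (β + ε) = 2 * β / (2 + β) + 2 / (2 + β) * ε := by ring
        linarith

/-- the family of the first intervals of the chains -/
def FirstFam (β : ℝ) (M : ℕ) (t : ℕ × ℕ × ℕ × ℕ) : Prop :=
  t.1 * t.2.2.2 = t.2.1 * t.2.2.1 + 1 ∧ 1 ≤ t.2.2.1 ∧ 1 ≤ t.2.2.2 ∧ t.1 ≤ M * t.2.2.1 ∧ First β t.2.2.1 t.2.2.2

theorem m_bound {β : ℝ} (hβ : 0 ≤ β) {X : ℝ} (hX : 1 ≤ X) (k m : ℕ) (h1 : (m : ℝ) ≤ ((2 : ℝ) ^ (k + 1)) ^ (β / 2))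
    (h2 : (2 : ℝ) ^ k * m ≤ X) : (m : ℝ) ^ 2 ≤ 2 ^ (2 * β / (2 + β)) * X ^ (2 * β / (2 + β)) := by
  have hX0 : 0 < X := by linarith
  rcases Nat.eq_zero_or_pos m with h | h
  · rw [h]
    simp only [Nat.cast_zero, ne_eq, OfNat.ofNat_ne_zero, not_false_eq_true, zero_pow]
    positivity
  have hm0 : (0 : ℝ) < m := by exact_mod_cast h
  have h3 : (m : ℝ) ≤ X / 2 ^ k := by
    rw [le_div_iff₀ (by positivity)]
    linarith
  have e0 : 2 / (2 + β) + β / (2 + β) = 1 := by field_simp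
  calc (m : ℝ) ^ 2 = ((m : ℝ) ^ 2) ^ (2 / (2 + β)) * ((m : ℝ) ^ 2) ^ (β / (2 + β)) := by
        rw [← Real.rpow_add (by positivity), e0, Real.rpow_one]
    _ ≤ ((((2 : ℝ) ^ (k + 1)) ^ (β / 2)) ^ 2) ^ (2 / (2 + β)) * ((X / 2 ^ k) ^ 2) ^ (β / (2 + β)) := by
        gcongr
    _ = 2 ^ (2 * β / (2 + β)) * X ^ (2 * β / (2 + β)) := by
        have e1 : ((((2 : ℝ) ^ (k + 1)) ^ (β / 2)) ^ 2) ^ (2 / (2 + β)) =
            2 ^ (2 * β / (2 + β)) * ((2 : ℝ) ^ k) ^ (2 * β / (2 + β)) := by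
          rw [← Real.rpow_natCast (((2 : ℝ) ^ (k + 1)) ^ (β / 2)) 2, ← Real.rpow_mul (by positivity),
            ← Real.rpow_mul (by positivity), pow_succ, Real.mul_rpow (by positivity) (by norm_num)]
          have : β / 2 * (((2 : ℕ) : ℝ) * (2 / (2 + β))) = 2 * β / (2 + β) := by
            push_cast
            field_simp
          rw [this]
          ring
        have e2 : ((X / 2 ^ k) ^ 2) ^ (β / (2 + β)) = X ^ (2 * β / (2 + β)) / ((2 : ℝ) ^ k) ^ (2 * β / (2 + β)) := by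
          rw [← Real.rpow_natCast (X / 2 ^ k) 2, ← Real.rpow_mul (by positivity),
            Real.div_rpow hX0.le (by positivity)]
          have : ((2 : ℕ) : ℝ) * (β / (2 + β)) = 2 * β / (2 + β) := by
            push_cast
            ring
          rw [this]
        rw [e1, e2]
        have : ((2 : ℝ) ^ k) ^ (2 * β / (2 + β)) ≠ 0 := by positivity
        field_simp

theorem count_first {β : ℝ} (hβ : 0 ≤ β) (M : ℕ) :
    ∀ ε : ℝ, 0 < ε → ∃ C : ℝ, ∀ X : ℝ, 1 ≤ X →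
      {t | FirstFam β M t ∧ ((max (t.2.2.1 * t.2.2.2) 1 : ℕ) : ℝ) ≤ X}.Finite ∧
      (({t | FirstFam β M t ∧ ((max (t.2.2.1 * t.2.2.2) 1 : ℕ) : ℝ) ≤ X}.ncard : ℕ) : ℝ) ≤
        C * X ^ (2 * β / (2 + β) + ε) := by
  classical
  intro ε hε
  obtain ⟨D, hD⟩ : ∃ D : ℝ, ∀ X : ℝ, 1 ≤ X → ((Nat.log 2 ⌊X⌋₊ : ℝ) + 1) ≤ D * X ^ ε := by
    refine ⟨1 / ε / Real.log 2 + 1, fun X hX => ?_⟩
    have hN : 1 ≤ ⌊X⌋₊ := Nat.le_floor (by exact_mod_cast hX)
    have h1 : (Nat.log 2 ⌊X⌋₊ : ℝ) ≤ Real.log X / Real.log 2 := by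
      rw [le_div_iff₀ (Real.log_pos (by norm_num)), ← Real.log_pow]
      apply Real.log_le_log (by positivity)
      have h2 : 2 ^ Nat.log 2 ⌊X⌋₊ ≤ ⌊X⌋₊ := Nat.pow_log_le_self 2 (by omega)
      calc (2 : ℝ) ^ Nat.log 2 ⌊X⌋₊ ≤ (⌊X⌋₊ : ℝ) := by exact_mod_cast h2
        _ ≤ X := Nat.floor_le (by linarith)
    have h2 : Real.log X ≤ X ^ ε / ε := Real.log_le_rpow_div (by linarith) hε
    have h3 : (1 : ℝ) ≤ X ^ ε := Real.one_le_rpow hX hε.le
    have hl2 : 0 < Real.log 2 := Real.log_pos (by norm_num)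
    calc (Nat.log 2 ⌊X⌋₊ : ℝ) + 1 ≤ (X ^ ε / ε) / Real.log 2 + X ^ ε := by
          have : Real.log X / Real.log 2 ≤ (X ^ ε / ε) / Real.log 2 := by gcongr
          linarith
      _ = (1 / ε / Real.log 2 + 1) * X ^ ε := by ring
  refine ⟨2 * (M + 1) * 2 ^ (2 * β / (2 + β)) * D, fun X hX => ?_⟩
  have hX0 : 0 < X := by linarith
  obtain ⟨m, hm⟩ : ∃ m : ℕ → ℕ, ∀ k, m k = min ⌊((2 : ℝ) ^ (k + 1)) ^ (β / 2)⌋₊ ⌊X / 2 ^ k⌋₊ := ⟨_, fun _ => rfl⟩
  have hm1 : ∀ k, ((m k : ℕ) : ℝ) ≤ ((2 : ℝ) ^ (k + 1)) ^ (β / 2) := fun k => by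
    rw [hm]
    refine le_trans (Nat.cast_le.2 (min_le_left _ _)) (Nat.floor_le (by positivity))
  have hm2 : ∀ k, (2 : ℝ) ^ k * ((m k : ℕ) : ℝ) ≤ X := fun k => by
    rw [hm]
    have h1 : ((min ⌊((2 : ℝ) ^ (k + 1)) ^ (β / 2)⌋₊ ⌊X / 2 ^ k⌋₊ : ℕ) : ℝ) ≤ X / 2 ^ k :=
      le_trans (Nat.cast_le.2 (min_le_right _ _)) (Nat.floor_le (by positivity))
    calc (2 : ℝ) ^ k * _ ≤ (2 : ℝ) ^ k * (X / 2 ^ k) := mul_le_mul_of_nonneg_left h1 (by positivity)
      _ = X := by field_simp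
  have hm3 : ∀ k n : ℕ, (n : ℝ) ≤ ((2 : ℝ) ^ (k + 1)) ^ (β / 2) → (2 : ℝ) ^ k * n ≤ X → n ≤ m k := by
    intro k n h1 h2
    rw [hm, le_min_iff]
    refine ⟨Nat.le_floor h1, Nat.le_floor ?_⟩
    rw [le_div_iff₀ (by positivity)]
    linarith
  -- the target of the parametrization
  let T : Finset (ℕ × Bool × ℕ × ℕ × ℕ) := (range (Nat.log 2 ⌊X⌋₊ + 1)).biUnion (fun k =>
    {k} ×ˢ (univ ×ˢ (Icc 1 (m k) ×ˢ (range (m k) ×ˢ range (M + 1)))))
  have hTc : (T.card : ℝ) ≤ (2 * (M + 1) * 2 ^ (2 * β / (2 + β)) * D) * X ^ (2 * β / (2 + β) + ε) := by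
    have h1 : (T.card : ℝ) ≤ ∑ k ∈ range (Nat.log 2 ⌊X⌋₊ + 1), (2 * (M + 1) * ((m k : ℕ) : ℝ) ^ 2) := by
      have h2 : T.card ≤ ∑ k ∈ range (Nat.log 2 ⌊X⌋₊ + 1), (2 * (M + 1) * (m k) ^ 2) := by
        refine card_biUnion_le.trans (sum_le_sum (fun k _ => ?_))
        rw [card_product, card_product, card_product, card_product, card_singleton, card_univ, Fintype.card_bool,
          Nat.card_Icc, card_range, card_range]
        apply le_of_eq
        have : m k + 1 - 1 = m k := by omega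
        rw [this]
        ring
      exact_mod_cast h2
    refine h1.trans ?_
    have h2 : ∀ k ∈ range (Nat.log 2 ⌊X⌋₊ + 1), (2 * (M + 1) * ((m k : ℕ) : ℝ) ^ 2) ≤
        2 * (M + 1) * (2 ^ (2 * β / (2 + β)) * X ^ (2 * β / (2 + β))) := by
      intro k _
      have := m_bound hβ hX k (m k) (hm1 k) (hm2 k)
      gcongr
    refine (sum_le_sum h2).trans ?_
    rw [sum_const, card_range, nsmul_eq_mul, Real.rpow_add hX0]
    have h3 := hD X hX
    push_cast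
    calc ((Nat.log 2 ⌊X⌋₊ : ℝ) + 1) * (2 * ((M : ℝ) + 1) * (2 ^ (2 * β / (2 + β)) * X ^ (2 * β / (2 + β))))
        ≤ (D * X ^ ε) * (2 * ((M : ℝ) + 1) * (2 ^ (2 * β / (2 + β)) * X ^ (2 * β / (2 + β)))) :=
          mul_le_mul_of_nonneg_right h3 (by positivity)
      _ = _ := by ring
  -- the parametrization
  have hpar : ∀ t ∈ {t | FirstFam β M t ∧ ((max (t.2.2.1 * t.2.2.2) 1 : ℕ) : ℝ) ≤ X},
      ∃ k : ℕ, ∃ b : Bool, (k, b, (if b then t.2.2.2 else t.2.2.1), (if b then t.2.2.1 else t.2.2.2) - 2 ^ k,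
        t.1 / t.2.2.1) ∈ T ∧ 2 ^ k ≤ (if b then t.2.2.1 else t.2.2.2) := by
    rintro ⟨p, q, r, s⟩ ⟨⟨h1, h2, h3, h4, k, h5⟩, h6⟩
    simp only at h1 h2 h3 h4 h5 h6
    have hrs : ((r : ℝ) * s) ≤ X := by
      refine le_trans ?_ h6
      exact_mod_cast le_max_left (r * s) 1
    have hr1 : (1 : ℝ) ≤ r := by exact_mod_cast h2
    have hs1 : (1 : ℝ) ≤ s := by exact_mod_cast h3
    have hdiv : p / r < M + 1 := Nat.lt_succ_of_le (Nat.div_le_of_le_mul (by rw [mul_comm]; exact h4))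
    have hklog : ∀ u : ℕ, 2 ^ k ≤ u → (u : ℝ) ≤ X → k < Nat.log 2 ⌊X⌋₊ + 1 := by
      intro u hu huX
      have h7 : 2 ^ k ≤ ⌊X⌋₊ := hu.trans (Nat.le_floor huX)
      exact Nat.lt_succ_of_le (Nat.le_log_of_pow_le (by norm_num) h7)
    rcases h5 with ⟨h7, h8, h9⟩ | ⟨h7, h8, h9⟩
    · refine ⟨k, true, ?_, by simpa using h7⟩
      have hsm : s ≤ m k := by
        apply hm3 k s h9
        have h10 : (2 : ℝ) ^ k ≤ r := by exact_mod_cast h7
        calc (2 : ℝ) ^ k * s ≤ r * s := mul_le_mul_of_nonneg_right h10 (by linarith)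
          _ ≤ X := hrs
      simp only [if_true, T, mem_biUnion, mem_product, mem_range, mem_Icc, mem_univ, mem_singleton, true_and]
      refine ⟨k, hklog r h7 (by nlinarith), rfl, ⟨h3, hsm⟩, ?_, hdiv⟩
      omega
    · refine ⟨k, false, ?_, by simpa using h7⟩
      have hrm : r ≤ m k := by
        apply hm3 k r h9
        have h10 : (2 : ℝ) ^ k ≤ s := by exact_mod_cast h7
        calc (2 : ℝ) ^ k * r ≤ s * r := mul_le_mul_of_nonneg_right h10 (by linarith)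
          _ ≤ X := by linarith
      simp only [Bool.false_eq_true, if_false, T, mem_biUnion, mem_product, mem_range, mem_Icc, mem_univ,
        mem_singleton, true_and]
      refine ⟨k, hklog s h7 (by nlinarith), rfl, ⟨h2, hrm⟩, ?_, hdiv⟩
      omega
  choose! kk bb h1 h2 using hpar
  let φ : ℕ × ℕ × ℕ × ℕ → ℕ × Bool × ℕ × ℕ × ℕ := fun t =>
    (kk t, bb t, (if bb t then t.2.2.2 else t.2.2.1), (if bb t then t.2.2.1 else t.2.2.2) - 2 ^ kk t, t.1 / t.2.2.1)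
  have hφ : Set.InjOn φ {t | FirstFam β M t ∧ ((max (t.2.2.1 * t.2.2.2) 1 : ℕ) : ℝ) ≤ X} := by
    intro t ht t' ht' e
    have k2 := h2 t ht
    have k2' := h2 t' ht'
    obtain ⟨⟨j1, j2, j3, -, -⟩, -⟩ := ht
    obtain ⟨⟨j1', j2', j3', -, -⟩, -⟩ := ht'
    obtain ⟨p, q, r, s⟩ := t
    obtain ⟨p', q', r', s'⟩ := t'
    simp only [φ, Prod.mk.injEq] at e
    obtain ⟨e1, e2, e3, e4, e5⟩ := e
    simp only at j1 j2 j3 j1' j2' j3' k2 k2'
    rw [← e1, ← e2] at k2'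
    rw [← e1] at e4
    rw [← e2] at e3 e4
    have hrs : r = r' ∧ s = s' := by
      cases hb : bb (p, q, r, s)
      · rw [hb] at e3 e4 k2 k2'
        simp only [Bool.false_eq_true, if_false] at e3 e4 k2 k2'
        exact ⟨e3, by omega⟩
      · rw [hb] at e3 e4 k2 k2'
        simp only [if_true] at e3 e4 k2 k2'
        exact ⟨by omega, e3⟩
    obtain ⟨rfl, rfl⟩ := hrs
    have hr0 : 0 < r := j2
    have m1 : (r : ℤ) ∣ ((p : ℤ) - p') * s := by
      refine ⟨(q : ℤ) - q', ?_⟩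
      have i1 : (p : ℤ) * s = q * r + 1 := by exact_mod_cast j1
      have i2 : (p' : ℤ) * s = q' * r + 1 := by exact_mod_cast j1'
      linarith
    have m2 := mod_eq_of (cop_of_det j1) m1
    have m3 : p % r = p' % r := by exact_mod_cast m2
    have m4 : p = p' := by rw [← Nat.div_add_mod p r, ← Nat.div_add_mod p' r, e5, m3]
    subst m4
    have m5 : q * r = q' * r := by omega
    rw [Nat.eq_of_mul_eq_mul_right hr0 m5]
  have hfin : {t | FirstFam β M t ∧ ((max (t.2.2.1 * t.2.2.2) 1 : ℕ) : ℝ) ≤ X}.Finite := by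
    apply Set.Finite.of_finite_image _ hφ
    refine T.finite_toSet.subset ?_
    rintro _ ⟨t, ht, rfl⟩
    exact mem_coe.2 (h1 t ht)
  refine ⟨hfin, ?_⟩
  have hcard : {t | FirstFam β M t ∧ ((max (t.2.2.1 * t.2.2.2) 1 : ℕ) : ℝ) ≤ X}.ncard ≤ T.card := by
    rw [Set.ncard_eq_toFinset_card _ hfin]
    apply card_le_card_of_injOn φ
    · intro t ht
      rw [Set.Finite.coe_toFinset] at ht
      exact mem_coe.2 (h1 t ht)
    · rw [Set.Finite.coe_toFinset]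
      exact hφ
  exact (Nat.cast_le.2 hcard).trans hTc

/-- **The Farey intervals around a real number avoid all sets of pairs with a power saving.** -/
theorem farey_nest {β : ℝ} (hβ : 0 ≤ β) {B : Set (ℕ × ℕ)} (hB : Thin β B) (hpos : ∀ z ∈ B, 1 ≤ z.1 ∧ 1 ≤ z.2) :
    Generic (2 * β / (2 + β)) (fun α => 0 < α → {z : ℕ × ℕ × ℕ × ℕ | Neighbours α z.1 z.2.1 z.2.2.1 z.2.2.2 ∧
        ((z.1, z.2.1) ∈ B ∨ (z.2.2.1, z.2.2.2) ∈ B ∨ (z.1, z.2.2.1) ∈ B ∨ (z.2.1, z.2.2.2) ∈ B)}.Finite) := by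
  have hσ : 0 ≤ 2 * β / (2 + β) := by positivity
  have hH1 : ∀ t : ℕ × ℕ × ℕ × ℕ, (1 : ℝ) ≤ ((max (t.2.2.1 * t.2.2.2) 1 : ℕ) : ℝ) := fun t => by
    exact_mod_cast le_max_right _ _
  -- the first intervals
  have g0 := Generic.all (ι := ℕ) (s := 2 * β / (2 + β)) (fun M : ℕ => generic_near (T := ℕ × ℕ × ℕ × ℕ)
    (H := fun t => ((max (t.2.2.1 * t.2.2.2) 1 : ℕ) : ℝ)) hH1 (Bad := FirstFam β M) hσ (count_first hβ M)
    (fun t => (t.1 : ℝ) / t.2.2.1))
  -- balanced, `(r, s)` in `B`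
  have g1 := Generic.all (ι := ℕ) (s := 2 * β / (2 + β)) (fun M : ℕ => generic_near (T := ℕ × ℕ × ℕ × ℕ)
    (H := fun t => ((max (t.2.2.1 * t.2.2.2) 1 : ℕ) : ℝ)) hH1
    (Bad := fun t => t.1 * t.2.2.2 = t.2.1 * t.2.2.1 + 1 ∧ 1 ≤ t.2.2.1 ∧ 1 ≤ t.2.2.2 ∧ (t.2.2.1, t.2.2.2) ∈ B ∧
      t.1 ≤ (M + 1) * t.2.2.1 ∧ Bal β t.2.2.1 t.2.2.2) hσ
    (count_bal hβ hB (fun t => (t.2.2.1, t.2.2.2)) (fun t => t.1 / t.2.2.1) (M + 1) (by omega) (by
        rintro ⟨p, q, r, s⟩ ⟨h1, h2, h3, h4, h5, h6⟩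
        simp only at h1 h2 h3 h4 h5 h6 ⊢
        refine ⟨h4, h2, h3, ?_, ?_, ?_, h6, h2⟩
        · exact (le_max_left r s).trans (Nat.le_mul_of_pos_left _ (by omega))
        · exact (le_max_right r s).trans (Nat.le_mul_of_pos_left _ (by omega))
        · exact Nat.div_le_of_le_mul (by rw [mul_comm]; exact h5)) (by
        rintro ⟨p, q, r, s⟩ ⟨p', q', r', s'⟩ ⟨h1, h2, h3, -, -, -⟩ ⟨h1', -, -, -, -, -⟩ e1 e2
        simp only [Prod.mk.injEq] at h1 h2 h3 h1' e1 e2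
        obtain ⟨rfl, rfl⟩ := e1
        have hr0 : 0 < r := h2
        have k1 : (r : ℤ) ∣ ((p : ℤ) - p') * s := by
          refine ⟨(q : ℤ) - q', ?_⟩
          have j1 : (p : ℤ) * s = q * r + 1 := by exact_mod_cast h1
          have j2 : (p' : ℤ) * s = q' * r + 1 := by exact_mod_cast h1'
          linarith
        have k2 := mod_eq_of (cop_of_det h1) k1
        have k3 : p % r = p' % r := by exact_mod_cast k2
        have k4 : p = p' := by rw [← Nat.div_add_mod p r, ← Nat.div_add_mod p' r, e2, k3]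
        subst k4
        have k5 : q * r = q' * r := by omega
        rw [Nat.eq_of_mul_eq_mul_right hr0 k5]))
    (fun t => (t.1 : ℝ) / t.2.2.1))
  -- balanced, `(p, q)` in `B`
  have g2 := Generic.all (ι := ℕ) (s := 2 * β / (2 + β)) (fun M : ℕ => generic_near (T := ℕ × ℕ × ℕ × ℕ)
    (H := fun t => ((max (t.2.2.1 * t.2.2.2) 1 : ℕ) : ℝ)) hH1
    (Bad := fun t => t.1 * t.2.2.2 = t.2.1 * t.2.2.1 + 1 ∧ 1 ≤ t.1 ∧ 1 ≤ t.2.2.1 ∧ (t.1, t.2.1) ∈ B ∧
      t.2.2.1 ≤ (M + 1) * t.1 ∧ t.1 ≤ (M + 1) * t.2.2.1 ∧ t.2.1 ≤ (M + 1) * t.2.2.2 ∧ Bal β t.2.2.1 t.2.2.2) hσ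
    (count_bal hβ hB (fun t => (t.1, t.2.1)) (fun t => t.2.2.1 / t.1) (M + 1) (by omega) (by
        rintro ⟨p, q, r, s⟩ ⟨h1, h2, h3, h4, h5, h6, h7, h8⟩
        simp only at h1 h2 h3 h4 h5 h6 h7 h8 ⊢
        refine ⟨h4, h2, (hpos _ h4).2, ?_, ?_, ?_, h8, h3⟩
        · exact h6.trans (Nat.mul_le_mul_left _ (le_max_left r s))
        · exact h7.trans (Nat.mul_le_mul_left _ (le_max_right r s))
        · exact Nat.div_le_of_le_mul (by rw [mul_comm]; exact h5)) (by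
        rintro ⟨p, q, r, s⟩ ⟨p', q', r', s'⟩ ⟨h1, h2, -⟩ ⟨h1', -⟩ e1 e2
        simp only [Prod.mk.injEq] at h1 h2 h1' e1 e2
        obtain ⟨rfl, rfl⟩ := e1
        have hp0 : 0 < p := h2
        have k1 : (p : ℤ) ∣ ((r : ℤ) - r') * q := by
          refine ⟨(s : ℤ) - s', ?_⟩
          have j1 : (p : ℤ) * s = q * r + 1 := by exact_mod_cast h1
          have j2 : (p : ℤ) * s' = q * r' + 1 := by exact_mod_cast h1'
          linarith
        have k2 := mod_eq_of (cop_of_det' h1) k1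
        have k3 : r % p = r' % p := by exact_mod_cast k2
        have k4 : r = r' := by rw [← Nat.div_add_mod r p, ← Nat.div_add_mod r' p, e2, k3]
        subst k4
        have k5 : p * s = p * s' := by omega
        rw [Nat.eq_of_mul_eq_mul_left hp0 k5]))
    (fun t => (t.1 : ℝ) / t.2.2.1))
  -- balanced, `(p, r)` in `B`, `s ≤ r`
  have g3 := Generic.all (ι := ℕ) (s := 2 * β / (2 + β)) (fun M : ℕ => generic_near (T := ℕ × ℕ × ℕ × ℕ)
    (H := fun t => ((max (t.2.2.1 * t.2.2.2) 1 : ℕ) : ℝ)) hH1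
    (Bad := fun t => t.1 * t.2.2.2 = t.2.1 * t.2.2.1 + 1 ∧ 1 ≤ t.2.2.2 ∧ t.2.2.2 ≤ t.2.2.1 ∧ (t.1, t.2.2.1) ∈ B ∧
      t.1 ≤ (M + 1) * t.2.2.1 ∧ Bal β t.2.2.1 t.2.2.2) hσ
    (count_bal hβ hB (fun t => (t.1, t.2.2.1)) (fun t => 0) (M + 1) (by omega) (by
        rintro ⟨p, q, r, s⟩ ⟨h1, h2, h3, h4, h5, h6⟩
        simp only at h1 h2 h3 h4 h5 h6 ⊢
        refine ⟨h4, (hpos _ h4).1, (hpos _ h4).2, ?_, ?_, by omega, h6, (hpos _ h4).2⟩
        · exact h5.trans (Nat.mul_le_mul_left _ (le_max_left r s))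
        · exact (le_max_left r s).trans (Nat.le_mul_of_pos_left _ (by omega))) (by
        rintro ⟨p, q, r, s⟩ ⟨p', q', r', s'⟩ ⟨h1, h2, h3, h4, -, -⟩ ⟨h1', h2', h3', -, -, -⟩ e1 _
        simp only [Prod.mk.injEq] at h1 h2 h3 h4 h1' h2' h3' e1
        obtain ⟨rfl, rfl⟩ := e1
        have hr0 : 0 < r := (hpos _ h4).2
        have k1 : (r : ℤ) ∣ ((s : ℤ) - s') * p := by
          refine ⟨(q : ℤ) - q', ?_⟩
          have j1 : (p : ℤ) * s = q * r + 1 := by exact_mod_cast h1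
          have j2 : (p : ℤ) * s' = q' * r + 1 := by exact_mod_cast h1'
          linarith
        have hc : IsCoprime (p : ℤ) (r : ℤ) := by
          have h' : (p : ℤ) * s = q * r + 1 := by exact_mod_cast h1
          exact ⟨s, -q, by linarith⟩
        have k2 := mod_eq_of hc k1
        have k3 : s % r = s' % r := by exact_mod_cast k2
        have k4 : s = s' := by
          rcases Nat.lt_or_ge s r with h | h
          · rcases Nat.lt_or_ge s' r with h' | h'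
            · rwa [Nat.mod_eq_of_lt h, Nat.mod_eq_of_lt h'] at k3
            · have h'' : s' = r := by omega
              rw [h'', Nat.mod_self, Nat.mod_eq_of_lt h] at k3
              omega
          · have h'' : s = r := by omega
            rcases Nat.lt_or_ge s' r with h' | h'
            · rw [h'', Nat.mod_self, Nat.mod_eq_of_lt h'] at k3
              omega
            · omega
        subst k4
        have k5 : q * r = q' * r := by omega
        rw [Nat.eq_of_mul_eq_mul_right hr0 k5]))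
    (fun t => (t.1 : ℝ) / t.2.2.1))
  -- balanced, `(q, s)` in `B`, `r ≤ s`
  have g4 := Generic.all (ι := ℕ) (s := 2 * β / (2 + β)) (fun M : ℕ => generic_near (T := ℕ × ℕ × ℕ × ℕ)
    (H := fun t => ((max (t.2.2.1 * t.2.2.2) 1 : ℕ) : ℝ)) hH1
    (Bad := fun t => t.1 * t.2.2.2 = t.2.1 * t.2.2.1 + 1 ∧ 1 ≤ t.2.2.1 ∧ t.2.2.1 ≤ t.2.2.2 ∧ (t.2.1, t.2.2.2) ∈ B ∧
      t.2.1 ≤ (M + 1) * t.2.2.2 ∧ Bal β t.2.2.1 t.2.2.2) hσ
    (count_bal hβ hB (fun t => (t.2.1, t.2.2.2)) (fun t => 0) (M + 1) (by omega) (by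
        rintro ⟨p, q, r, s⟩ ⟨h1, h2, h3, h4, h5, h6⟩
        simp only at h1 h2 h3 h4 h5 h6 ⊢
        refine ⟨h4, (hpos _ h4).1, (hpos _ h4).2, ?_, ?_, by omega, h6, h2⟩
        · exact h5.trans (Nat.mul_le_mul_left _ (le_max_right r s))
        · exact (le_max_right r s).trans (Nat.le_mul_of_pos_left _ (by omega))) (by
        rintro ⟨p, q, r, s⟩ ⟨p', q', r', s'⟩ ⟨h1, h2, h3, h4, -, -⟩ ⟨h1', h2', h3', -, -, -⟩ e1 _
        simp only [Prod.mk.injEq] at h1 h2 h3 h4 h1' h2' h3' e1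
        obtain ⟨rfl, rfl⟩ := e1
        have hs0 : 0 < s := (hpos _ h4).2
        have k1 : (s : ℤ) ∣ ((r : ℤ) - r') * q := by
          refine ⟨(p : ℤ) - p', ?_⟩
          have j1 : (p : ℤ) * s = q * r + 1 := by exact_mod_cast h1
          have j2 : (p' : ℤ) * s = q * r' + 1 := by exact_mod_cast h1'
          linarith
        have hc : IsCoprime (q : ℤ) (s : ℤ) := by
          have h' : (p : ℤ) * s = q * r + 1 := by exact_mod_cast h1
          exact ⟨-r, p, by linarith⟩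
        have k2 := mod_eq_of hc k1
        have k3 : r % s = r' % s := by exact_mod_cast k2
        have k4 : r = r' := by
          rcases Nat.lt_or_ge r s with h | h
          · rcases Nat.lt_or_ge r' s with h' | h'
            · rwa [Nat.mod_eq_of_lt h, Nat.mod_eq_of_lt h'] at k3
            · have h'' : r' = s := by omega
              rw [h'', Nat.mod_self, Nat.mod_eq_of_lt h] at k3
              omega
          · have h'' : r = s := by omega
            rcases Nat.lt_or_ge r' s with h' | h'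
            · rw [h'', Nat.mod_self, Nat.mod_eq_of_lt h'] at k3
              omega
            · omega
        subst k4
        have k5 : p * s = p' * s := by omega
        rw [Nat.eq_of_mul_eq_mul_right hs0 k5]))
    (fun t => (t.1 : ℝ) / t.2.2.1))
  have h := (generic_irrational hσ).and (g0.and (g1.and (g2.and (g3.and g4))))
  refine h.mono (fun α hα hα0 => ?_)
  obtain ⟨hirr, h0, h1, h2, h3, h4⟩ := hα
  obtain ⟨M, hM⟩ := exists_nat_ge (α + 1 + 1 / α)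
  have hinv : 0 < 1 / α := by positivity
  have hMα : α + 1 ≤ M := by linarith
  have hMi : 1 / α ≤ M := by linarith
  -- size relations
  have hsize : ∀ p q r s : ℕ, Neighbours α p q r s → p ≤ M * r ∧ q ≤ M * s ∧ r ≤ M * p ∧
      |(p : ℝ) / r - α| ≤ 1 / ((max (r * s) 1 : ℕ) : ℝ) ∧ 1 ≤ p := by
    intro p q r s hN
    obtain ⟨k1, k2, k3, k4, k5, k6⟩ := nb_facts hα0 hN
    obtain ⟨-, j2, j3, -, -⟩ := hN
    have hr0 : (0 : ℝ) ≤ r := Nat.cast_nonneg r
    have hs0 : (0 : ℝ) ≤ s := Nat.cast_nonneg s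
    have hp0 : (0 : ℝ) ≤ p := Nat.cast_nonneg p
    refine ⟨?_, ?_, ?_, ?_, k1⟩
    · have : (p : ℝ) ≤ M * r := k2.trans (mul_le_mul_of_nonneg_right hMα hr0)
      exact_mod_cast this
    · have : (q : ℝ) ≤ M * s := k3.trans (mul_le_mul_of_nonneg_right (by linarith) hs0)
      exact_mod_cast this
    · have : (r : ℝ) ≤ M * p := by
        refine k4.trans ?_
        rw [div_eq_mul_inv, mul_comm]
        apply mul_le_mul_of_nonneg_right _ hp0
        rw [← one_div]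
        exact hMi
      exact_mod_cast this
    · have : max (r * s) 1 = r * s := max_eq_left (Nat.mul_pos j2 j3)
      rw [this]
      push_cast
      exact k5
  -- unbalanced intervals are bounded
  obtain ⟨N, hN⟩ : ∃ N : ℕ, ∀ p q r s : ℕ, Neighbours α p q r s → ¬ Bal β r s → max r s ≤ N := by
    obtain ⟨N, hN⟩ : ∃ N : ℕ, ∀ t ∈ {t : ℕ × ℕ × ℕ × ℕ | |(t.1 : ℝ) / t.2.2.1 - α| ≤
        1 / ((max (t.2.2.1 * t.2.2.2) 1 : ℕ) : ℝ) ∧ FirstFam β M t}, max t.2.2.1 t.2.2.2 ≤ N := by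
      refine ⟨((h0 M 1).toFinset.sup (fun t => max t.2.2.1 t.2.2.2)), fun t ht => ?_⟩
      exact Finset.le_sup (f := fun t : ℕ × ℕ × ℕ × ℕ => max t.2.2.1 t.2.2.2) ((h0 M 1).mem_toFinset.2 ht)
    refine ⟨2 * N, fun p q r s hn hb => ?_⟩
    obtain ⟨p', q', r', s', j1, j2, j3⟩ := to_first hβ hn hb
    obtain ⟨i1, i2, i3, i4, i5⟩ := hsize p' q' r' s' j1
    have := hN (p', q', r', s') ⟨i4, j1.1, j1.2.1, j1.2.2.1, i1, j2⟩
    simp only at this
    omega
  apply combine hirr hα0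
  · -- `(r, s)`
    refine (((h1 M 1).image (fun t => (t.2.2.1, t.2.2.2))).union
      ((Set.finite_Iic N).prod (Set.finite_Iic N))).subset ?_
    rintro ⟨r, s⟩ ⟨hB', p, q, hn⟩
    obtain ⟨i1, i2, i3, i4, i5⟩ := hsize p q r s hn
    by_cases hb : Bal β r s
    · left
      refine ⟨(p, q, r, s), ⟨i4, hn.1, hn.2.1, hn.2.2.1, hB', ?_, hb⟩, rfl⟩
      exact i1.trans (Nat.mul_le_mul_right _ (by omega))
    · right
      have := hN p q r s hn hb
      exact ⟨(le_max_left r s).trans this, (le_max_right r s).trans this⟩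
  · -- `(p, q)`
    refine (((h2 M 1).image (fun t => (t.1, t.2.1))).union
      ((Set.finite_Iic (M * N)).prod (Set.finite_Iic (M * N)))).subset ?_
    rintro ⟨p, q⟩ ⟨hB', r, s, hn⟩
    obtain ⟨i1, i2, i3, i4, i5⟩ := hsize p q r s hn
    by_cases hb : Bal β r s
    · left
      refine ⟨(p, q, r, s), ⟨i4, hn.1, i5, hn.2.1, hB', ?_, ?_, ?_, hb⟩, rfl⟩
      · exact i3.trans (Nat.mul_le_mul_right _ (by omega))
      · exact i1.trans (Nat.mul_le_mul_right _ (by omega))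
      · exact i2.trans (Nat.mul_le_mul_right _ (by omega))
    · right
      have := hN p q r s hn hb
      exact ⟨i1.trans (Nat.mul_le_mul_left _ ((le_max_left r s).trans this)),
        i2.trans (Nat.mul_le_mul_left _ ((le_max_right r s).trans this))⟩
  · -- `(p, r)`
    refine (((h3 M 1).image (fun t => (t.1, t.2.2.1))).union
      ((Set.finite_Iic (M * N)).prod (Set.finite_Iic N))).subset ?_
    rintro ⟨p, r⟩ ⟨hB', q₀, s₀, hn₀⟩
    obtain ⟨q, s, j1, j2, hn⟩ := down_s0 s₀ q₀ hn₀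
    obtain ⟨i1, i2, i3, i4, i5⟩ := hsize p q r s hn
    by_cases hb : Bal β r s
    · left
      refine ⟨(p, q, r, s), ⟨i4, hn.1, j1, j2, hB', ?_, hb⟩, rfl⟩
      exact i1.trans (Nat.mul_le_mul_right _ (by omega))
    · right
      have := hN p q r s hn hb
      exact ⟨i1.trans (Nat.mul_le_mul_left _ ((le_max_left r s).trans this)), (le_max_left r s).trans this⟩
  · -- `(q, s)`
    refine (((h4 M 1).image (fun t => (t.2.1, t.2.2.2))).union
      ((Set.finite_Iic (M * N)).prod (Set.finite_Iic N))).subset ?_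
    rintro ⟨q, s⟩ ⟨hB', p₀, r₀, hn₀⟩
    obtain ⟨p, r, j1, j2, hn⟩ := down_r0 r₀ p₀ hn₀
    obtain ⟨i1, i2, i3, i4, i5⟩ := hsize p q r s hn
    by_cases hb : Bal β r s
    · left
      refine ⟨(p, q, r, s), ⟨i4, hn.1, j1, j2, hB', ?_, hb⟩, rfl⟩
      exact i2.trans (Nat.mul_le_mul_right _ (by omega))
    · right
      have := hN p q r s hn hb
      exact ⟨i2.trans (Nat.mul_le_mul_left _ ((le_max_right r s).trans this)), (le_max_right r s).trans this⟩

end Run7.h469.EU
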