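import Pool.Agent.Run7.h469.EU.Sum
import Pool.Agent.R559.NP.Near

/-! Properties of all real numbers outside a set of small Hausdorff dimension. -/

set_option autoImplicit false

namespace Run7.h469.EU

open Finset Filter Topology MeasureTheory

/-- The property holds outside a set of Hausdorff dimension at most `s`, and almost everywhere for each measure for which the
balls of radius `r` have measure at most `C₀ r^m` for some `m > s`. -/
def Generic (s : ℝ) (Q : ℝ → Prop) : Prop :=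
  (∃ E : Set ℝ, dimH E ≤ ENNReal.ofReal s ∧ ∀ α : ℝ, α ∉ E → Q α) ∧
  ∀ (μ : Measure ℝ) (C₀ m : ℝ), s < m →
    (∀ (x r : ℝ), 0 < r → μ (Metric.closedBall x r) ≤ ENNReal.ofReal (C₀ * r ^ m)) → ∀ᵐ α ∂μ, Q α

theorem Generic.mono {s : ℝ} {Q R : ℝ → Prop} (h : ∀ α, Q α → R α) (hQ : Generic s Q) : Generic s R := by
  obtain ⟨⟨E, h1, h2⟩, h3⟩ := hQ
  refine ⟨⟨E, h1, fun α hα => h α (h2 α hα)⟩, fun μ C₀ m hm hμ => ?_⟩
  filter_upwards [h3 μ C₀ m hm hμ] with α hα
  exact h α hα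

theorem Generic.all {ι : Type} [Countable ι] {s : ℝ} {Q : ι → ℝ → Prop} (h : ∀ i, Generic s (Q i)) :
    Generic s (fun α => ∀ i, Q i α) := by
  constructor
  · choose E h1 h2 using fun i => (h i).1
    refine ⟨⋃ i, E i, ?_, fun α hα i => h2 i α (fun h3 => hα (Set.mem_iUnion.2 ⟨i, h3⟩))⟩
    rw [dimH_iUnion]
    exact iSup_le h1
  · intro μ C₀ m hm hμ
    rw [ae_all_iff]
    exact fun i => (h i).2 μ C₀ m hm hμ

theorem Generic.and {s : ℝ} {Q R : ℝ → Prop} (hQ : Generic s Q) (hR : Generic s R) :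
    Generic s (fun α => Q α ∧ R α) := by
  have h := Generic.all (ι := Bool) (s := s) (Q := fun i => if i then Q else R) (fun i => by
    cases i
    · exact hR
    · exact hQ)
  refine h.mono (fun α hα => ⟨?_, ?_⟩)
  · simpa using hα true
  · simpa using hα false

theorem generic_ne {s : ℝ} (hs : 0 ≤ s) (x : ℝ) : Generic s (fun α => α ≠ x) := by
  constructor
  · refine ⟨{x}, ?_, fun α hα h => hα (by rw [h]; rfl)⟩
    rw [dimH_singleton]
    exact zero_le
  · intro μ C₀ m hm hμ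
    have hx : μ {x} = 0 := by
      have h1 : ∀ r : ℝ, 0 < r → μ {x} ≤ ENNReal.ofReal (C₀ * r ^ m) := fun r hr =>
        (measure_mono (by
          intro y hy
          rw [Set.mem_singleton_iff] at hy
          rw [hy]
          exact Metric.mem_closedBall_self hr.le)).trans (hμ x r hr)
      have h2 : Tendsto (fun r : ℝ => ENNReal.ofReal (C₀ * r ^ m)) (𝓝[>] 0) (𝓝 0) := by
        have h3 : Tendsto (fun r : ℝ => C₀ * r ^ m) (𝓝[>] 0) (𝓝 (C₀ * 0)) := by
          apply Tendsto.const_mul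
          have h4 : Tendsto (fun r : ℝ => r ^ m) (𝓝[>] 0) (𝓝 ((0 : ℝ) ^ m)) :=
            (Real.continuousAt_rpow_const 0 m (Or.inr (by linarith))).tendsto.mono_left nhdsWithin_le_nhds
          rwa [Real.zero_rpow (by linarith)] at h4
        rw [mul_zero] at h3
        have h5 := (ENNReal.continuous_ofReal.tendsto 0).comp h3
        rw [ENNReal.ofReal_zero] at h5
        exact h5
      have h6 : μ {x} ≤ 0 := by
        apply ge_of_tendsto h2
        filter_upwards [self_mem_nhdsWithin] with r hr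
        exact h1 r hr
      exact le_antisymm h6 zero_le
    rw [ae_iff]
    simpa using hx

theorem generic_irrational {s : ℝ} (hs : 0 ≤ s) : Generic s Irrational := by
  have h := Generic.all (ι := ℚ) (s := s) (Q := fun q α => α ≠ (q : ℝ)) (fun q => generic_ne hs _)
  refine h.mono (fun α hα => ?_)
  rintro ⟨q, hq⟩
  exact hα q hq.symm

theorem generic_near {T : Type} [Countable T] {H : T → ℝ} (h1 : ∀ t, 1 ≤ H t) {Bad : T → Prop} {s : ℝ} (hs : 0 ≤ s)
    (hcount : ∀ ε : ℝ, 0 < ε → ∃ C : ℝ, ∀ B : ℝ, 1 ≤ B → {t | Bad t ∧ H t ≤ B}.Finite ∧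
      (({t | Bad t ∧ H t ≤ B}.ncard : ℕ) : ℝ) ≤ C * B ^ (s + ε)) (φ : T → ℝ) :
    Generic s (fun α => ∀ A : ℝ, {t | |φ t - α| ≤ A / H t ∧ Bad t}.Finite) := by
  have hpt : ∀ α : ℝ, (∀ A : ℝ, {t | dist (φ t) α ≤ A * H t ^ (-(1 : ℝ)) ∧ Bad t}.Finite) →
      ∀ A : ℝ, {t | |φ t - α| ≤ A / H t ∧ Bad t}.Finite := by
    intro α hα A
    refine (hα A).subset ?_
    rintro t ⟨h2, h3⟩
    refine ⟨?_, h3⟩
    rw [Real.dist_eq, Real.rpow_neg_one, ← div_eq_mul_inv]
    exact h2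
  constructor
  · obtain ⟨E, h2, h3⟩ := Pool.Agent.R559.NP.near_dim h1 (τ := 1) hs one_pos hcount φ
    rw [div_one] at h2
    exact ⟨E, h2, fun α hα => hpt α (h3 α hα)⟩
  · intro μ C₀ m hm hμ
    have h2 := Pool.Agent.R559.NP.near_ae μ (C₀ := C₀) (m := m) (fun x r hr => hμ x r hr) h1 (τ := 1) hs
      (by linarith) hcount φ
    filter_upwards [h2] with α hα
    exact hpt α hα

/-- `C H^(β + ε)` bounds the number of the elements of `B` with coordinates in `[1, H]` -/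
def Thin (β : ℝ) (B : Set (ℕ × ℕ)) : Prop := ∀ ε : ℝ, 0 < ε → ∃ C : ℝ, 0 ≤ C ∧ Sparse C (β + ε) B

theorem fin_box2 (B : Set (ℕ × ℕ)) (N : ℕ) : {z : ℕ × ℕ | z ∈ B ∧ 1 ≤ z.1 ∧ 1 ≤ z.2 ∧ z.1 ≤ N ∧ z.2 ≤ N}.Finite := by
  refine ((Set.finite_Iic N).prod (Set.finite_Iic N)).subset ?_
  rintro ⟨p, q⟩ ⟨-, -, -, h1, h2⟩
  exact ⟨h1, h2⟩

/-- counting a family which is parametrized by the elements of a thin set and bounded numbers -/
theorem count_of_inj {T : Type} {β : ℝ} (hβ : 0 ≤ β) {B : Set (ℕ × ℕ)} (hB : Thin β B) {Bad : T → Prop} {H : T → ℝ}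
    (f : T → ℕ × ℕ) (g : T → ℕ) (M : ℕ)
    (h : ∀ t, Bad t → f t ∈ B ∧ 1 ≤ (f t).1 ∧ 1 ≤ (f t).2 ∧ ((f t).1 : ℝ) ≤ H t ∧ ((f t).2 : ℝ) ≤ H t ∧ g t ≤ M)
    (hinj : ∀ t t', Bad t → Bad t' → f t = f t' → g t = g t' → t = t') :
    ∀ ε : ℝ, 0 < ε → ∃ C : ℝ, ∀ X : ℝ, 1 ≤ X → {t | Bad t ∧ H t ≤ X}.Finite ∧
      (({t | Bad t ∧ H t ≤ X}.ncard : ℕ) : ℝ) ≤ C * X ^ (β + ε) := by
  classical
  intro ε hε
  obtain ⟨C, hC, hCB⟩ := hB ε hε
  refine ⟨(M + 1) * C, fun X hX => ?_⟩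
  obtain ⟨N, hN⟩ : ∃ N, N = ⌊X⌋₊ := ⟨_, rfl⟩
  have hN1 : 1 ≤ N := by rw [hN]; exact Nat.le_floor (by exact_mod_cast hX)
  have hNX : (N : ℝ) ≤ X := by rw [hN]; exact Nat.floor_le (by linarith)
  have hmap : ∀ t ∈ {t | Bad t ∧ H t ≤ X}, (f t, g t) ∈
      (fin_box2 B N).toFinset ×ˢ range (M + 1) := by
    rintro t ⟨h1, h2⟩
    obtain ⟨h3, h4, h5, h6, h7, h8⟩ := h t h1
    rw [mem_product, Set.Finite.mem_toFinset, mem_range]
    refine ⟨⟨h3, h4, h5, ?_, ?_⟩, by simp only; omega⟩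
    · rw [hN]; exact Nat.le_floor (h6.trans h2)
    · rw [hN]; exact Nat.le_floor (h7.trans h2)
  have hio : Set.InjOn (fun t => (f t, g t)) {t | Bad t ∧ H t ≤ X} := by
    intro t ht t' ht' e
    simp only [Prod.mk.injEq] at e
    exact hinj t t' ht.1 ht'.1 e.1 e.2
  have hfin : {t | Bad t ∧ H t ≤ X}.Finite := by
    apply Set.Finite.of_finite_image _ hio
    refine ((fin_box2 B N).toFinset ×ˢ range (M + 1)).finite_toSet.subset ?_
    rintro _ ⟨t, ht, rfl⟩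
    exact mem_coe.2 (hmap t ht)
  refine ⟨hfin, ?_⟩
  have hcard : {t | Bad t ∧ H t ≤ X}.ncard ≤ ((fin_box2 B N).toFinset ×ˢ range (M + 1)).card := by
    rw [Set.ncard_eq_toFinset_card _ hfin]
    apply card_le_card_of_injOn (fun t => (f t, g t))
    · intro t ht
      rw [Set.Finite.coe_toFinset] at ht
      exact mem_coe.2 (hmap t ht)
    · rw [Set.Finite.coe_toFinset]
      exact hio
  rw [card_product, card_range] at hcard
  have h2 : (((fin_box2 B N).toFinset.card : ℕ) : ℝ) ≤ C * (N : ℝ) ^ (β + ε) := by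
    apply hCB N _ hN1
    intro z hz
    rw [Set.Finite.mem_toFinset] at hz
    exact hz
  calc (({t | Bad t ∧ H t ≤ X}.ncard : ℕ) : ℝ) ≤ (((fin_box2 B N).toFinset.card * (M + 1) : ℕ) : ℝ) := by
        exact_mod_cast hcard
    _ = (((fin_box2 B N).toFinset.card : ℕ) : ℝ) * (M + 1) := by push_cast; ring
    _ ≤ (C * (N : ℝ) ^ (β + ε)) * (M + 1) := by gcongr
    _ ≤ (C * X ^ (β + ε)) * (M + 1) := by
        apply mul_le_mul_of_nonneg_right _ (by positivity)
        apply mul_le_mul_of_nonneg_left _ hC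
        exact Real.rpow_le_rpow (by positivity) hNX (by linarith)
    _ = (M + 1) * C * X ^ (β + ε) := by ring

end Run7.h469.EU
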