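import Mathlib

/-! The number of pairs whose subtractive Euclidean algorithm passes through a given pair. -/

set_option autoImplicit false

namespace Run7.h469.EU

open Finset

/-- one step of the subtractive Euclidean algorithm -/
def sub (x : ℕ × ℕ) : ℕ × ℕ :=
  if x.1 < x.2 then (x.1, x.2 - x.1) else if x.2 < x.1 then (x.1 - x.2, x.2) else x

theorem mat_of_state (a b : ℕ) (ha : 1 ≤ a) (hb : 1 ≤ b) : ∀ (k : ℕ) (u v : ℕ), sub^[k] (a, b) = (u, v) →
    1 ≤ u ∧ 1 ≤ v ∧ ∃ p q r s : ℕ, p * s = q * r + 1 ∧ a = p * u + q * v ∧ b = r * u + s * v := by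
  intro k
  induction k with
  | zero =>
    intro u v h
    simp only [Function.iterate_zero, id_eq, Prod.mk.injEq] at h
    obtain ⟨rfl, rfl⟩ := h
    exact ⟨ha, hb, 1, 0, 0, 1, by ring, by ring, by ring⟩
  | succ k ih =>
    intro u v h
    rw [Function.iterate_succ_apply'] at h
    obtain ⟨u', hu'⟩ : ∃ u', u' = (sub^[k] (a, b)).1 := ⟨_, rfl⟩
    obtain ⟨v', hv'⟩ : ∃ v', v' = (sub^[k] (a, b)).2 := ⟨_, rfl⟩
    have e : sub^[k] (a, b) = (u', v') := by rw [hu', hv']
    obtain ⟨h1, h2, p, q, r, s, h3, h4, h5⟩ := ih u' v' e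
    rw [e] at h
    unfold sub at h
    simp only at h
    split_ifs at h with c1 c2
    · simp only [Prod.mk.injEq] at h
      obtain ⟨rfl, rfl⟩ := h
      obtain ⟨w, rfl⟩ := Nat.exists_eq_add_of_lt c1
      have e1 : u' + w + 1 - u' = w + 1 := by omega
      rw [e1]
      refine ⟨h1, by omega, p + q, q, r + s, s, ?_, ?_, ?_⟩
      · calc (p + q) * s = p * s + q * s := by ring
          _ = q * r + 1 + q * s := by rw [h3]
          _ = q * (r + s) + 1 := by ring
      · rw [h4]; ring
      · rw [h5]; ring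
    · simp only [Prod.mk.injEq] at h
      obtain ⟨rfl, rfl⟩ := h
      obtain ⟨w, rfl⟩ := Nat.exists_eq_add_of_lt c2
      have e1 : v' + w + 1 - v' = w + 1 := by omega
      rw [e1]
      refine ⟨by omega, h2, p, p + q, r, r + s, ?_, ?_, ?_⟩
      · calc p * (r + s) = p * s + p * r := by ring
          _ = q * r + 1 + p * r := by rw [h3]
          _ = (p + q) * r + 1 := by ring
      · rw [h4]; ring
      · rw [h5]; ring
    · simp only [Prod.mk.injEq] at h
      obtain ⟨rfl, rfl⟩ := h
      exact ⟨h1, h2, p, q, r, s, h3, h4, h5⟩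

/-- elements up to `L` in one residue class modulo `p` -/
theorem card_class {p : ℕ} (L : ℕ) (F : Finset ℕ) (hF : ∀ x ∈ F, x ≤ L)
    (hc : ∀ x ∈ F, ∀ y ∈ F, x % p = y % p) : F.card ≤ L / p + 1 := by
  have h : F.card ≤ (range (L / p + 1)).card := by
    apply card_le_card_of_injOn (fun x => x / p)
    · intro x hx
      rw [coe_range, Set.mem_Iio]
      have := Nat.div_le_div_right (c := p) (hF x hx)
      simp only
      omega
    · intro x hx y hy hxy
      simp only at hxy
      rw [← Nat.div_add_mod x p, ← Nat.div_add_mod y p, hxy, hc x hx y hy]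
  rwa [card_range] at h

open Classical in
/-- the second columns -/
noncomputable def cols (p r L : ℕ) : Finset (ℕ × ℕ) :=
  (range (L + 1) ×ˢ range (L + 1)).filter (fun x => p * x.2 = x.1 * r + 1)

theorem card_cols_left {p r L : ℕ} (hp : 1 ≤ p) : (cols p r L).card ≤ L / p + 1 := by
  classical
  have hinj : ((cols p r L).image Prod.fst).card = (cols p r L).card := by
    apply card_image_of_injOn
    rintro ⟨q, s⟩ hx ⟨q', s'⟩ hy h
    simp only at h
    subst h
    unfold cols at hx hy
    rw [mem_coe, mem_filter] at hx hy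
    have h1 := hx.2
    have h2 := hy.2
    simp only at h1 h2
    have : p * s = p * s' := by rw [h1, h2]
    rw [Nat.eq_of_mul_eq_mul_left hp this]
  rw [← hinj]
  apply card_class
  · intro x hx
    rw [mem_image] at hx
    obtain ⟨y, hy, rfl⟩ := hx
    unfold cols at hy
    rw [mem_filter, mem_product, mem_range, mem_range] at hy
    omega
  · intro x hx y hy
    rw [mem_image] at hx hy
    obtain ⟨⟨q, s⟩, hx, rfl⟩ := hx
    obtain ⟨⟨q', s'⟩, hy, rfl⟩ := hy
    unfold cols at hx hy
    rw [mem_filter] at hx hy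
    have h1 := hx.2
    have h2 := hy.2
    simp only at h1 h2 ⊢
    -- `p ∣ (q - q') r` and `p`, `r` are coprime
    have h3 : (p : ℤ) ∣ ((q : ℤ) - q') * r := by
      refine ⟨(s : ℤ) - s', ?_⟩
      have h1' : (p : ℤ) * s = q * r + 1 := by exact_mod_cast h1
      have h2' : (p : ℤ) * s' = q' * r + 1 := by exact_mod_cast h2
      linarith
    have hcop : IsCoprime (p : ℤ) (r : ℤ) := by
      have h1' : (p : ℤ) * s = q * r + 1 := by exact_mod_cast h1
      exact ⟨s, -q, by linarith⟩
    have h4 : (p : ℤ) ∣ (q : ℤ) - q' := hcop.dvd_of_dvd_mul_right h3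
    have h5 : (q' : ℤ) ≡ q [ZMOD p] := Int.modEq_iff_dvd.2 h4
    exact ((Int.natCast_modEq_iff.1 h5)).symm

theorem card_cols_right {p r L : ℕ} (hr : 1 ≤ r) : (cols p r L).card ≤ L / r + 1 := by
  classical
  have hinj : ((cols p r L).image Prod.snd).card = (cols p r L).card := by
    apply card_image_of_injOn
    rintro ⟨q, s⟩ hx ⟨q', s'⟩ hy h
    simp only at h
    subst h
    unfold cols at hx hy
    rw [mem_coe, mem_filter] at hx hy
    have h1 := hx.2
    have h2 := hy.2
    simp only at h1 h2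
    have : q * r = q' * r := by omega
    rw [Nat.eq_of_mul_eq_mul_right hr this]
  rw [← hinj]
  apply card_class
  · intro x hx
    rw [mem_image] at hx
    obtain ⟨y, hy, rfl⟩ := hx
    unfold cols at hy
    rw [mem_filter, mem_product, mem_range, mem_range] at hy
    omega
  · intro x hx y hy
    rw [mem_image] at hx hy
    obtain ⟨⟨q, s⟩, hx, rfl⟩ := hx
    obtain ⟨⟨q', s'⟩, hy, rfl⟩ := hy
    unfold cols at hx hy
    rw [mem_filter] at hx hy
    have h1 := hx.2
    have h2 := hy.2
    simp only at h1 h2 ⊢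
    have h3 : (r : ℤ) ∣ (p : ℤ) * ((s : ℤ) - s') := by
      refine ⟨(q : ℤ) - q', ?_⟩
      have h1' : (p : ℤ) * s = q * r + 1 := by exact_mod_cast h1
      have h2' : (p : ℤ) * s' = q' * r + 1 := by exact_mod_cast h2
      linarith
    have hcop : IsCoprime (r : ℤ) (p : ℤ) := by
      have h1' : (p : ℤ) * s = q * r + 1 := by exact_mod_cast h1
      exact ⟨-q, s, by linarith⟩
    have h4 : (r : ℤ) ∣ (s : ℤ) - s' := hcop.dvd_of_dvd_mul_left h3
    have h5 : (s' : ℤ) ≡ s [ZMOD r] := Int.modEq_iff_dvd.2 h4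
    exact ((Int.natCast_modEq_iff.1 h5)).symm

open Classical in
/-- the pairs up to `X` which have the form `M (u, v)` with a matrix `M` of determinant one with nonnegative entries -/
noncomputable def above (X u v : ℕ) : Finset (ℕ × ℕ) :=
  (Icc 1 X ×ˢ Icc 1 X).filter (fun x => ∃ p q r s : ℕ, p * s = q * r + 1 ∧ x.1 = p * u + q * v ∧ x.2 = r * u + s * v)

theorem card_above_of_le {X u v : ℕ} (hv : 1 ≤ v) (hvu : v ≤ u) :
    (above X u v).card ≤ 6 * ((X / u) * (X / v)) := by
  classical
  obtain ⟨K, hK⟩ : ∃ K, K = X / u := ⟨_, rfl⟩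
  obtain ⟨L, hL⟩ : ∃ L, L = X / v := ⟨_, rfl⟩
  have hKL : K ≤ L := by rw [hK, hL]; exact Nat.div_le_div_left hvu hv
  rw [← hK, ← hL]
  let f : ℕ → ℕ → Finset (ℕ × ℕ) := fun p r => (cols p r L).image (fun x => (p * u + x.1 * v, r * u + x.2 * v))
  have hsub : above X u v ⊆ ((Icc 1 K).biUnion (fun p => (range (p + 1)).biUnion (fun r => f p r))) ∪
      ((Icc 1 K).biUnion (fun r => (range r).biUnion (fun p => if 1 ≤ p then f p r else ∅))) := by
    rintro ⟨a, b⟩ hx
    unfold above at hx
    rw [mem_filter, mem_product, mem_Icc, mem_Icc] at hx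
    obtain ⟨⟨⟨_, haX⟩, _, hbX⟩, p, q, r, s, h1, h2, h3⟩ := hx
    simp only at haX hbX h2 h3
    have hu : 0 < u := by omega
    have hp : 1 ≤ p := by
      rcases Nat.eq_zero_or_pos p with h | h
      · rw [h] at h1; omega
      · exact h
    have hpK : p ≤ K := by
      rw [hK, Nat.le_div_iff_mul_le hu]
      have : 0 ≤ q * v := Nat.zero_le _
      omega
    have hrK : r ≤ K := by
      rw [hK, Nat.le_div_iff_mul_le hu]
      have : 0 ≤ s * v := Nat.zero_le _
      omega
    have hqL : q ≤ L := by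
      rw [hL, Nat.le_div_iff_mul_le (by omega)]
      have : 0 ≤ p * u := Nat.zero_le _
      omega
    have hsL : s ≤ L := by
      rw [hL, Nat.le_div_iff_mul_le (by omega)]
      have : 0 ≤ r * u := Nat.zero_le _
      omega
    have hf : (a, b) ∈ f p r := by
      rw [mem_image]
      refine ⟨(q, s), ?_, by simp only [h2, h3]⟩
      unfold cols
      rw [mem_filter, mem_product, mem_range, mem_range]
      exact ⟨⟨by simp only; omega, by simp only; omega⟩, h1⟩
    rw [mem_union, mem_biUnion, mem_biUnion]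
    by_cases hrp : r ≤ p
    · left
      refine ⟨p, by rw [mem_Icc]; omega, ?_⟩
      rw [mem_biUnion]
      exact ⟨r, by rw [mem_range]; omega, hf⟩
    · right
      refine ⟨r, by rw [mem_Icc]; omega, ?_⟩
      rw [mem_biUnion]
      refine ⟨p, by rw [mem_range]; omega, ?_⟩
      rw [if_pos hp]
      exact hf
  have hA : (((Icc 1 K).biUnion (fun p => (range (p + 1)).biUnion (fun r => f p r)))).card ≤ 4 * (K * L) := by
    refine card_biUnion_le.trans ?_
    have h1 : ∀ p ∈ Icc 1 K, ((range (p + 1)).biUnion (fun r => f p r)).card ≤ 4 * L := by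
      intro p hp
      rw [mem_Icc] at hp
      refine card_biUnion_le.trans ?_
      have h2 : ∀ r ∈ range (p + 1), (f p r).card ≤ L / p + 1 := fun r _ => card_image_le.trans (card_cols_left hp.1)
      refine (sum_le_sum h2).trans ?_
      rw [sum_const, card_range, smul_eq_mul]
      have h3 : 1 ≤ L / p := by
        rw [Nat.le_div_iff_mul_le (by omega)]
        omega
      calc (p + 1) * (L / p + 1) ≤ (2 * p) * (2 * (L / p)) := Nat.mul_le_mul (by omega) (by omega)
        _ = 4 * (p * (L / p)) := by ring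
        _ ≤ 4 * L := Nat.mul_le_mul_left _ (Nat.mul_div_le L p)
    refine (sum_le_sum h1).trans ?_
    rw [sum_const, Nat.card_Icc, smul_eq_mul]
    have : K + 1 - 1 = K := by omega
    rw [this]
    exact le_of_eq (by ring)
  have hB : (((Icc 1 K).biUnion (fun r => (range r).biUnion (fun p => if 1 ≤ p then f p r else ∅)))).card ≤
      2 * (K * L) := by
    refine card_biUnion_le.trans ?_
    have h1 : ∀ r ∈ Icc 1 K, ((range r).biUnion (fun p => if 1 ≤ p then f p r else ∅)).card ≤ 2 * L := by
      intro r hr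
      rw [mem_Icc] at hr
      refine card_biUnion_le.trans ?_
      have h2 : ∀ p ∈ range r, (if 1 ≤ p then f p r else ∅).card ≤ L / r + 1 := by
        intro p _
        split_ifs
        · exact card_image_le.trans (card_cols_right hr.1)
        · simp
      refine (sum_le_sum h2).trans ?_
      rw [sum_const, card_range, smul_eq_mul]
      have h3 : 1 ≤ L / r := by
        rw [Nat.le_div_iff_mul_le (by omega)]
        omega
      calc r * (L / r + 1) ≤ r * (2 * (L / r)) := Nat.mul_le_mul_left _ (by omega)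
        _ = 2 * (r * (L / r)) := by ring
        _ ≤ 2 * L := Nat.mul_le_mul_left _ (Nat.mul_div_le L r)
    refine (sum_le_sum h1).trans ?_
    rw [sum_const, Nat.card_Icc, smul_eq_mul]
    have : K + 1 - 1 = K := by omega
    rw [this]
    exact le_of_eq (by ring)
  refine (card_le_card hsub).trans ((card_union_le _ _).trans ?_)
  omega

theorem card_above_swap {X u v : ℕ} : (above X u v).card = (above X v u).card := by
  classical
  have h : ∀ u v : ℕ, (above X u v).card ≤ (above X v u).card := by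
    intro u v
    apply card_le_card_of_injOn Prod.swap
    · rintro ⟨a, b⟩ hx
      unfold above at hx ⊢
      rw [mem_coe, mem_filter, mem_product] at hx ⊢
      obtain ⟨⟨h1, h2⟩, p, q, r, s, h3, h4, h5⟩ := hx
      simp only at h1 h2 h4 h5
      refine ⟨⟨h2, h1⟩, s, r, q, p, by rw [mul_comm, h3, mul_comm], ?_, ?_⟩
      · simp only [Prod.fst_swap]; rw [h5]; ring
      · simp only [Prod.snd_swap]; rw [h4]; ring
    · intro x _ y _ hxy
      exact Prod.swap_injective hxy
  exact le_antisymm (h u v) (h v u)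

/-- **The number of pairs above `(u, v)`** is at most `6 (X / u) (X / v)`. -/
theorem card_above {X u v : ℕ} (hu : 1 ≤ u) (hv : 1 ≤ v) :
    (above X u v).card ≤ 6 * ((X / u) * (X / v)) := by
  rcases le_total v u with h | h
  · exact card_above_of_le hv h
  · rw [card_above_swap, mul_comm (X / u)]
    exact card_above_of_le hu h

theorem card_above_real {X u v : ℕ} (hu : 1 ≤ u) (hv : 1 ≤ v) :
    ((above X u v).card : ℝ) ≤ 6 * (X : ℝ) ^ 2 / (u * v) := by
  have h1 : ((above X u v).card : ℝ) ≤ 6 * (((X / u : ℕ) : ℝ) * ((X / v : ℕ) : ℝ)) := by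
    exact_mod_cast card_above hu hv
  refine h1.trans ?_
  have hu0 : (0 : ℝ) < u := by exact_mod_cast hu
  have hv0 : (0 : ℝ) < v := by exact_mod_cast hv
  have h2 : ((X / u : ℕ) : ℝ) ≤ (X : ℝ) / u := Nat.cast_div_le
  have h3 : ((X / v : ℕ) : ℝ) ≤ (X : ℝ) / v := Nat.cast_div_le
  calc 6 * (((X / u : ℕ) : ℝ) * ((X / v : ℕ) : ℝ)) ≤ 6 * ((X : ℝ) / u * ((X : ℝ) / v)) := by gcongr
    _ = 6 * (X : ℝ) ^ 2 / (u * v) := by field_simp

end Run7.h469.EU
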