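import Pool.Agent.Run7.h469.EU.Mat

/-! Pairs whose subtractive Euclidean algorithm passes through a large member of a thin set of pairs. -/

set_option autoImplicit false

namespace Run7.h469.EU

open Finset

/-- `C H^β` bounds the number of the elements of `B` with coordinates in `[1, H]` -/
def Sparse (C β : ℝ) (B : Set (ℕ × ℕ)) : Prop :=
  ∀ (H : ℕ) (F : Finset (ℕ × ℕ)), 1 ≤ H → (∀ z ∈ F, z ∈ B ∧ 1 ≤ z.1 ∧ 1 ≤ z.2 ∧ z.1 ≤ H ∧ z.2 ≤ H) →
    (F.card : ℝ) ≤ C * (H : ℝ) ^ β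

/-- the sum of `1 / max` over the large elements of a thin set -/
theorem sum_inv {C β : ℝ} (hC : 0 ≤ C) (hβ : β < 1) {B : Set (ℕ × ℕ)} (hB : Sparse C β B) (H : ℕ) (hH : 1 ≤ H)
    (F : Finset (ℕ × ℕ)) (hF : ∀ z ∈ F, z ∈ B ∧ 1 ≤ z.1 ∧ 1 ≤ z.2 ∧ H ≤ max z.1 z.2) :
    ∑ z ∈ F, 1 / ((max z.1 z.2 : ℕ) : ℝ) ≤ C * 2 ^ |β| / (1 - 2 ^ (β - 1)) * (H : ℝ) ^ (β - 1) := by
  classical
  obtain ⟨J, hJ⟩ : ∃ J, ∀ z ∈ F, Nat.log 2 (max z.1 z.2 / H) < J := by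
    refine ⟨(F.sup (fun z => Nat.log 2 (max z.1 z.2 / H))) + 1, fun z hz => ?_⟩
    have := Finset.le_sup (f := fun z : ℕ × ℕ => Nat.log 2 (max z.1 z.2 / H)) hz
    exact Nat.lt_succ_of_le this
  have hH0 : (0 : ℝ) < H := by exact_mod_cast hH
  have h1 : ∑ z ∈ F, 1 / ((max z.1 z.2 : ℕ) : ℝ) =
      ∑ j ∈ range J, ∑ z ∈ F.filter (fun z => Nat.log 2 (max z.1 z.2 / H) = j), 1 / ((max z.1 z.2 : ℕ) : ℝ) := by
    rw [sum_fiberwise_of_maps_to (s := F) (t := range J) (g := fun z => Nat.log 2 (max z.1 z.2 / H))]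
    intro z hz
    rw [mem_range]
    exact hJ z hz
  rw [h1]
  have h2 : ∀ j ∈ range J, ∑ z ∈ F.filter (fun z => Nat.log 2 (max z.1 z.2 / H) = j), 1 / ((max z.1 z.2 : ℕ) : ℝ) ≤
      C * 2 ^ |β| * (H : ℝ) ^ (β - 1) * ((2 : ℝ) ^ (β - 1)) ^ j := by
    intro j _
    have hcard : ((F.filter (fun z => Nat.log 2 (max z.1 z.2 / H) = j)).card : ℝ) ≤
        C * ((2 ^ (j + 1) * H : ℕ) : ℝ) ^ β := by
      apply hB
      · exact Nat.mul_pos (by positivity) hH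
      · intro z hz
        rw [mem_filter] at hz
        obtain ⟨h3, h4, h5, h6⟩ := hF z hz.1
        have h7 : max z.1 z.2 / H < 2 ^ (j + 1) := by
          rw [← hz.2]
          exact Nat.lt_pow_succ_log_self (by norm_num) _
        have h8 : max z.1 z.2 < 2 ^ (j + 1) * H := (Nat.div_lt_iff_lt_mul hH).1 h7
        exact ⟨h3, h4, h5, (le_max_left _ _).trans h8.le, (le_max_right _ _).trans h8.le⟩
    have hterm : ∀ z ∈ F.filter (fun z => Nat.log 2 (max z.1 z.2 / H) = j),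
        1 / ((max z.1 z.2 : ℕ) : ℝ) ≤ 1 / (2 ^ j * H) := by
      intro z hz
      rw [mem_filter] at hz
      obtain ⟨h3, h4, h5, h6⟩ := hF z hz.1
      apply one_div_le_one_div_of_le (by positivity)
      have h7 : 2 ^ j ≤ max z.1 z.2 / H := by
        rw [← hz.2]
        apply Nat.pow_log_le_self
        have : 1 ≤ max z.1 z.2 / H := (Nat.le_div_iff_mul_le hH).2 (by omega)
        omega
      have h8 : 2 ^ j * H ≤ max z.1 z.2 := (Nat.le_div_iff_mul_le hH).1 h7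
      exact_mod_cast h8
    calc _ ≤ ∑ z ∈ F.filter (fun z => Nat.log 2 (max z.1 z.2 / H) = j), 1 / ((2 : ℝ) ^ j * H) := sum_le_sum hterm
      _ = ((F.filter (fun z => Nat.log 2 (max z.1 z.2 / H) = j)).card : ℝ) * (1 / (2 ^ j * H)) := by
          rw [sum_const, nsmul_eq_mul]
      _ ≤ (C * ((2 ^ (j + 1) * H : ℕ) : ℝ) ^ β) * (1 / (2 ^ j * H)) :=
          mul_le_mul_of_nonneg_right hcard (by positivity)
      _ = C * 2 ^ β * (H : ℝ) ^ (β - 1) * ((2 : ℝ) ^ (β - 1)) ^ j := by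
          push_cast
          have e0 : ((2 : ℝ) ^ (β - 1)) ^ j = 2 ^ ((β - 1) * (j : ℝ)) := by
            rw [Real.rpow_mul (by norm_num), Real.rpow_natCast]
          rw [e0, Real.mul_rpow (by positivity) hH0.le, ← Real.rpow_natCast 2 (j + 1), ← Real.rpow_mul (by norm_num),
            Real.rpow_sub hH0, Real.rpow_one, ← Real.rpow_natCast 2 j]
          have e1 : (2 : ℝ) ^ (((j + 1 : ℕ) : ℝ) * β) = 2 ^ β * 2 ^ ((β - 1) * (j : ℝ)) * 2 ^ (j : ℝ) := by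
            rw [← Real.rpow_add (by norm_num), ← Real.rpow_add (by norm_num)]
            congr 1
            push_cast
            ring
          rw [e1]
          have h9 : (2 : ℝ) ^ (j : ℝ) ≠ 0 := by positivity
          field_simp
      _ ≤ C * 2 ^ |β| * (H : ℝ) ^ (β - 1) * ((2 : ℝ) ^ (β - 1)) ^ j := by
          have : (2 : ℝ) ^ β ≤ 2 ^ |β| := Real.rpow_le_rpow_of_exponent_le (by norm_num) (le_abs_self β)
          gcongr
  refine (sum_le_sum h2).trans ?_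
  rw [← mul_sum]
  have hr0 : (0 : ℝ) ≤ 2 ^ (β - 1) := by positivity
  have hr1 : (2 : ℝ) ^ (β - 1) < 1 := Real.rpow_lt_one_of_one_lt_of_neg (by norm_num) (by linarith)
  have h3 : ∑ j ∈ range J, ((2 : ℝ) ^ (β - 1)) ^ j ≤ 1 / (1 - 2 ^ (β - 1)) := by
    have hs := summable_geometric_of_lt_one hr0 hr1
    calc ∑ j ∈ range J, ((2 : ℝ) ^ (β - 1)) ^ j ≤ ∑' j, ((2 : ℝ) ^ (β - 1)) ^ j :=
          hs.sum_le_tsum _ (fun _ _ => by positivity)
      _ = 1 / (1 - 2 ^ (β - 1)) := by rw [tsum_geometric_of_lt_one hr0 hr1, one_div]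
  calc C * 2 ^ |β| * (H : ℝ) ^ (β - 1) * ∑ j ∈ range J, ((2 : ℝ) ^ (β - 1)) ^ j
      ≤ C * 2 ^ |β| * (H : ℝ) ^ (β - 1) * (1 / (1 - 2 ^ (β - 1))) := by gcongr
    _ = C * 2 ^ |β| / (1 - 2 ^ (β - 1)) * (H : ℝ) ^ (β - 1) := by ring

open Classical in
/-- **The Euclidean algorithm avoids thin sets of pairs.** -/
theorem euclid {C β : ℝ} (hC : 0 ≤ C) (hβ : β < 1) {B : Set (ℕ × ℕ)} (hB : Sparse C β B) :
    ∃ C' : ℝ, ∀ X H : ℕ, 1 ≤ H →
      (((Icc 1 X ×ˢ Icc 1 X).filter (fun x => ∃ k : ℕ, sub^[k] x ∈ B ∧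
        H ≤ max (sub^[k] x).1 (sub^[k] x).2)).card : ℝ) ≤ C' * (X : ℝ) ^ 2 * (H : ℝ) ^ (β - 1) := by
  refine ⟨6 * (C * 2 ^ |β| / (1 - 2 ^ (β - 1))), fun X H hH => ?_⟩
  let F : Finset (ℕ × ℕ) := (Icc 1 X ×ˢ Icc 1 X).filter (fun z => z ∈ B ∧ H ≤ max z.1 z.2)
  have hsub : (Icc 1 X ×ˢ Icc 1 X).filter (fun x => ∃ k : ℕ, sub^[k] x ∈ B ∧
      H ≤ max (sub^[k] x).1 (sub^[k] x).2) ⊆ F.biUnion (fun z => above X z.1 z.2) := by
    rintro ⟨a, b⟩ hx
    rw [mem_filter, mem_product, mem_Icc, mem_Icc] at hx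
    obtain ⟨⟨⟨ha1, ha2⟩, hb1, hb2⟩, k, h1, h2⟩ := hx
    simp only at ha1 ha2 hb1 hb2
    obtain ⟨⟨u, v⟩, huv⟩ : ∃ z, z = sub^[k] (a, b) := ⟨_, rfl⟩
    obtain ⟨h3, h4, p, q, r, s, h5, h6, h7⟩ := mat_of_state a b ha1 hb1 k u v huv.symm
    rw [← huv] at h1 h2
    rw [mem_biUnion]
    have hp : 1 ≤ p := by
      rcases Nat.eq_zero_or_pos p with h | h
      · rw [h] at h5; omega
      · exact h
    have hs : 1 ≤ s := by
      rcases Nat.eq_zero_or_pos s with h | h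
      · rw [h] at h5; omega
      · exact h
    have hu : u ≤ a := by
      rw [h6]
      calc u ≤ p * u := Nat.le_mul_of_pos_left u hp
        _ ≤ p * u + q * v := Nat.le_add_right _ _
    have hv : v ≤ b := by
      rw [h7]
      calc v ≤ s * v := Nat.le_mul_of_pos_left v hs
        _ ≤ r * u + s * v := Nat.le_add_left _ _
    refine ⟨(u, v), ?_, ?_⟩
    · rw [mem_filter, mem_product, mem_Icc, mem_Icc]
      exact ⟨⟨⟨h3, hu.trans ha2⟩, h4, hv.trans hb2⟩, h1, h2⟩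
    · unfold above
      rw [mem_filter, mem_product, mem_Icc, mem_Icc]
      exact ⟨⟨⟨ha1, ha2⟩, hb1, hb2⟩, p, q, r, s, h5, h6, h7⟩
  have h1 : (((Icc 1 X ×ˢ Icc 1 X).filter (fun x => ∃ k : ℕ, sub^[k] x ∈ B ∧
      H ≤ max (sub^[k] x).1 (sub^[k] x).2)).card : ℝ) ≤ ∑ z ∈ F, 6 * (X : ℝ) ^ 2 * (1 / ((max z.1 z.2 : ℕ) : ℝ)) := by
    calc _ ≤ ((F.biUnion (fun z => above X z.1 z.2)).card : ℝ) := Nat.cast_le.2 (card_le_card hsub)
      _ ≤ ((∑ z ∈ F, (above X z.1 z.2).card : ℕ) : ℝ) := Nat.cast_le.2 card_biUnion_le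
      _ = ∑ z ∈ F, ((above X z.1 z.2).card : ℝ) := by push_cast; rfl
      _ ≤ _ := by
          apply sum_le_sum
          intro z hz
          rw [mem_filter, mem_product, mem_Icc, mem_Icc] at hz
          obtain ⟨⟨⟨h3, _⟩, h4, _⟩, _, _⟩ := hz
          refine (card_above_real h3 h4).trans ?_
          have hu0 : (1 : ℝ) ≤ z.1 := by exact_mod_cast h3
          have hv0 : (1 : ℝ) ≤ z.2 := by exact_mod_cast h4
          have hm : ((max z.1 z.2 : ℕ) : ℝ) ≤ (z.1 : ℝ) * z.2 := by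
            rw [Nat.cast_max]
            apply max_le
            · nlinarith
            · nlinarith
          have hm0 : (0 : ℝ) < ((max z.1 z.2 : ℕ) : ℝ) := by
            have : 1 ≤ max z.1 z.2 := h3.trans (le_max_left _ _)
            exact_mod_cast this
          rw [mul_one_div]
          exact div_le_div_of_nonneg_left (by positivity) hm0 hm
  refine h1.trans ?_
  rw [← mul_sum]
  have h2 := sum_inv hC hβ hB H hH F (fun z hz => by
    rw [mem_filter, mem_product, mem_Icc, mem_Icc] at hz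
    exact ⟨hz.2.1, hz.1.1.1, hz.1.2.1, hz.2.2⟩)
  calc 6 * (X : ℝ) ^ 2 * ∑ z ∈ F, 1 / ((max z.1 z.2 : ℕ) : ℝ)
      ≤ 6 * (X : ℝ) ^ 2 * (C * 2 ^ |β| / (1 - 2 ^ (β - 1)) * (H : ℝ) ^ (β - 1)) := by gcongr
    _ = _ := by ring

end Run7.h469.EU
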